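import Mathlib

/-!
# Elimination in a one-parameter family with weighted scaling
-/

set_option autoImplicit false

open MvPolynomial

namespace Pool.Agent.SecPf

/-- Evaluation at the parameter `z` and the point `y`. -/
noncomputable def ev {σ : Type} (z : ℂ) (y : σ → ℂ) : MvPolynomial σ (Polynomial ℂ) →+* ℂ :=
  eval₂Hom (Polynomial.evalRingHom z) y

theorem ev_apply {σ : Type} [Fintype σ] (z : ℂ) (y : σ → ℂ)
    (f : MvPolynomial σ (Polynomial ℂ)) :
    ev z y f = ∑ d ∈ f.support, (f.coeff d).eval z * ∏ i, y i ^ d i := by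
  simp [ev, eval₂_eq']

/-- A polynomial vanishing along the scaling orbit of a point: every weighted component
vanishes at the point. -/
theorem comp_zero {σ : Type} [Fintype σ] (w : σ → ℕ) (z : ℂ) (y : σ → ℂ)
    (f : MvPolynomial σ (Polynomial ℂ))
    (h : ∀ c : ℂ, c ≠ 0 → ev z (fun i => c ^ w i * y i) f = 0) (D : ℕ) :
    ∑ d ∈ f.support with ∑ i, w i * d i = D, (f.coeff d).eval z * ∏ i, y i ^ d i = 0 := by
  classical
  set q : Polynomial ℂ := ∑ d ∈ f.support,
    Polynomial.C ((f.coeff d).eval z * ∏ i, y i ^ d i) * Polynomial.X ^ (∑ i, w i * d i) with hq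
  have hq0 : q = 0 := by
    apply Polynomial.eq_zero_of_infinite_isRoot
    refine Set.Infinite.mono (s := {(0 : ℂ)}ᶜ) ?_ (Set.Finite.infinite_compl (Set.finite_singleton _))
    intro c hc
    have h2 := h c hc
    rw [ev_apply] at h2
    show q.IsRoot c
    rw [Polynomial.IsRoot.def, hq, Polynomial.eval_finsetSum, ← h2]
    refine Finset.sum_congr rfl fun d _ => ?_
    simp only [Polynomial.eval_mul, Polynomial.eval_C, Polynomial.eval_pow, Polynomial.eval_X,
      mul_pow, Finset.prod_mul_distrib, ← pow_mul]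
    rw [Finset.prod_pow_eq_pow_sum]
    ring
  have h3 := congrArg (fun p => Polynomial.coeff p D) hq0
  simp only [hq, Polynomial.finsetSum_coeff, Polynomial.coeff_C_mul, Polynomial.coeff_X_pow,
    Polynomial.coeff_zero, mul_ite, mul_one, mul_zero] at h3
  rw [Finset.sum_filter]
  refine Eq.trans ?_ h3
  refine Finset.sum_congr rfl fun d _ => ?_
  by_cases hd : ∑ i, w i * d i = D
  · rw [if_pos hd, if_pos hd.symm]
  · rw [if_neg hd, if_neg (fun e => hd e.symm)]

/-- If the common zero set is stable under a weighted scaling for every parameter and is trivial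
for the parameter `1`, then it is trivial for all but finitely many parameters. -/
theorem elim {σ ι : Type} [Fintype σ] (w : σ → ℕ) (hw : ∀ i, 0 < w i)
    (F : ι → MvPolynomial σ (Polynomial ℂ))
    (hinv : ∀ (z : ℂ) (y : σ → ℂ) (c : ℂ), (∀ j, ev z y (F j) = 0) → c ≠ 0 →
      ∀ j, ev z (fun i => c ^ w i * y i) (F j) = 0)
    (h1 : ∀ y : σ → ℂ, (∀ j, ev 1 y (F j) = 0) → y = 0) :
    ∃ g : Polynomial ℂ, g.eval 1 ≠ 0 ∧ ∀ z, g.eval z ≠ 0 → ∀ y : σ → ℂ,
      (∀ j, ev z y (F j) = 0) → y = 0 := by
  classical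
  -- the ideal at the parameter `1`
  set φ : MvPolynomial σ (Polynomial ℂ) →+* MvPolynomial σ ℂ := map (Polynomial.evalRingHom 1)
    with hφ
  have hφs : Function.Surjective φ := map_surjective _ (fun a => ⟨Polynomial.C a, by simp⟩)
  set J : Ideal (MvPolynomial σ (Polynomial ℂ)) := Ideal.span (Set.range F) with hJ
  set I : Ideal (MvPolynomial σ ℂ) := J.map φ with hI
  have hev : ∀ (z : ℂ) (y : σ → ℂ), (∀ j, ev z y (F j) = 0) → ∀ f ∈ J, ev z y f = 0 := by
    intro z y hy f hf
    have : J ≤ RingHom.ker (ev z y) := by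
      rw [hJ, Ideal.span_le]
      rintro _ ⟨j, rfl⟩
      exact hy j
    exact this hf
  have hX : ∀ i, (X i : MvPolynomial σ ℂ) ∈ I.radical := by
    intro i
    rw [← vanishingIdeal_zeroLocus_eq_radical (K := ℂ), mem_vanishingIdeal_iff]
    intro y hy
    have hy0 : y = 0 := by
      apply h1
      intro j
      have := hy (φ (F j)) (Ideal.mem_map_of_mem φ (Ideal.subset_span ⟨j, rfl⟩))
      rw [hφ, aeval_def, eval₂_map, Algebra.algebraMap_self, RingHom.id_comp] at this
      exact this
    simp [hy0]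
  choose m hm using fun i => (Ideal.mem_radical_iff.mp (hX i))
  set M : ℕ := ∑ i, m i with hM
  have hmM : ∀ i, m i ≤ M := fun i => Finset.single_le_sum (fun _ _ => Nat.zero_le _) (Finset.mem_univ i)
  set D : ℕ := (∑ i, w i * M + 1) * ∏ i, w i with hD
  have hprod : 0 < ∏ i, w i := Finset.prod_pos fun i _ => hw i
  have hDlt : ∑ i, w i * M < D := by
    have : (∑ i, w i * M + 1) * 1 ≤ D := Nat.mul_le_mul_left _ hprod
    omega
  have hwD : ∀ i, w i ∣ D := fun i => (Finset.dvd_prod_of_mem w (Finset.mem_univ i)).mul_left _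
  -- every monomial of weight `D` lies in `I`
  have hmon : ∀ d : σ →₀ ℕ, ∑ i, w i * d i = D → (monomial d 1 : MvPolynomial σ ℂ) ∈ I := by
    intro d hd
    obtain ⟨i, hi⟩ : ∃ i, M ≤ d i := by
      by_contra hcon
      push Not at hcon
      have : ∑ i, w i * d i ≤ ∑ i, w i * M :=
        Finset.sum_le_sum fun i _ => Nat.mul_le_mul_left _ (hcon i).le
      omega
    have h2 : (monomial d 1 : MvPolynomial σ ℂ)
        = monomial (d - Finsupp.single i (m i)) 1 * X i ^ m i := by
      rw [X_pow_eq_monomial, monomial_mul, one_mul, tsub_add_cancel_of_le]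
      rw [Finsupp.single_le_iff]
      exact (hmM i).trans hi
    rw [h2]
    exact I.mul_mem_left _ (hm i)
  -- the finite set of exponents of weight `D`
  have hfin : {d : σ →₀ ℕ | ∑ i, w i * d i = D}.Finite := by
    refine (Set.finite_Icc 0 (Finsupp.equivFunOnFinite.symm fun _ : σ => D)).subset ?_
    intro d hd
    refine ⟨zero_le, fun i => ?_⟩
    have h2 : w i * d i ≤ ∑ i, w i * d i :=
      Finset.single_le_sum (f := fun i => w i * d i) (fun _ _ => Nat.zero_le _) (Finset.mem_univ i)
    have h3 : 1 * d i ≤ w i * d i := Nat.mul_le_mul_right _ (hw i)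
    have h4 : ∑ i, w i * d i = D := hd
    show d i ≤ D
    omega
  set S : Finset (σ →₀ ℕ) := hfin.toFinset with hS
  have hmemS : ∀ d, d ∈ S ↔ ∑ i, w i * d i = D := fun d => by simp [hS]
  -- lifts of these monomials
  have hlift : ∀ d : S, ∃ f ∈ J, φ f = monomial d.1 1 := by
    intro d
    have := hmon d.1 ((hmemS _).mp d.2)
    rw [hI, Ideal.mem_map_iff_of_surjective φ hφs] at this
    exact this
  choose f hfJ hf using hlift
  set A : Matrix S S (Polynomial ℂ) :=
    Matrix.of fun d e => (f d).coeff e.1 with hA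
  refine ⟨A.det, ?_, ?_⟩
  · have h2 : A.det.eval 1 = (A.map (Polynomial.evalRingHom 1)).det := by
      rw [← Polynomial.coe_evalRingHom, RingHom.map_det]; rfl
    have h3 : A.map (Polynomial.evalRingHom 1) = 1 := by
      ext d e
      have h4 := congrArg (coeff e.1) (hf d)
      rw [hφ, coeff_map, coeff_monomial] at h4
      rw [Matrix.map_apply, Matrix.one_apply, hA, Matrix.of_apply, h4]
      by_cases h5 : d = e
      · subst h5; simp
      · rw [if_neg h5, if_neg (fun h6 => h5 (Subtype.ext h6))]
    rw [h2, h3, Matrix.det_one]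
    exact one_ne_zero
  · intro z hz y hy
    have h2 : (A.map (Polynomial.evalRingHom z)).det ≠ 0 := by
      have : A.det.eval z = (A.map (Polynomial.evalRingHom z)).det := by
        rw [← Polynomial.coe_evalRingHom, RingHom.map_det]; rfl
      rwa [← this]
    have h3 : (A.map (Polynomial.evalRingHom z)).mulVec (fun e : S => ∏ i, y i ^ e.1 i) = 0 := by
      ext d
      have h4 := comp_zero w z y (f d)
        (fun c hc => hev z _ (hinv z y c hy hc) (f d) (hfJ d)) D
      rw [Pi.zero_apply, ← h4, Matrix.mulVec, dotProduct]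
      simp only [Matrix.map_apply, hA, Matrix.of_apply, Polynomial.coe_evalRingHom]
      rw [Finset.sum_coe_sort S (fun e => ((f d).coeff e).eval z * ∏ i, y i ^ e i)]
      symm
      refine Finset.sum_subset (fun e he => ?_) (fun e he1 he2 => ?_)
      · exact (hmemS e).mpr (Finset.mem_filter.mp he).2
      · have : e ∉ (f d).support := fun h5 =>
          he2 (Finset.mem_filter.mpr ⟨h5, (hmemS e).mp he1⟩)
        rw [notMem_support_iff.mp this]
        simp
    have h4 := Matrix.eq_zero_of_mulVec_eq_zero h2 h3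
    funext i
    have h5 : (Finsupp.single i (D / w i) : σ →₀ ℕ) ∈ S := by
      rw [hmemS]
      rw [Finset.sum_eq_single i]
      · rw [Finsupp.single_eq_same]; exact Nat.mul_div_cancel' (hwD i)
      · intro j _ hj
        rw [Finsupp.single_eq_of_ne hj, mul_zero]
      · intro h; exact absurd (Finset.mem_univ i) h
    have h6 := congrFun h4 ⟨_, h5⟩
    simp only [Pi.zero_apply] at h6
    rw [Finset.prod_eq_zero_iff] at h6
    obtain ⟨j, _, hj⟩ := h6
    by_cases hji : j = i
    · subst hji
      exact eq_zero_of_pow_eq_zero hj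
    · rw [Finsupp.single_eq_of_ne hji, pow_zero] at hj
      exact absurd hj one_ne_zero

end Pool.Agent.SecPf
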