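import Pool.Agent.SecFill.Closure
import Pool.Agent.SecPf.Elim

/-!
# Multisecant lines through a point off the variety: specialisation in a family
-/

set_option autoImplicit false

open MvPolynomial

namespace Pool.Agent.SecPf

open Pool.Agent.SecFill

/-- The direction `v` and the monic polynomial `H` of degree `k` give a multisecant line. -/
def Sec {N m : ℕ} (k : ℕ) (f : Fin m → MvPolynomial (Fin (N + 1)) ℂ) (p : Fin (N + 1) → ℂ)
    (j0 : Fin (N + 1)) (v : Fin (N + 1) → ℂ) (H : Polynomial ℂ) : Prop :=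
  v j0 = 0 ∧ v ≠ 0 ∧ H.Monic ∧ H.natDegree = k ∧ ∀ i, H ∣ dehom (onLine p v (f i))

section

variable {N k : ℕ} (p : Fin (N + 1) → ℂ) (j0 : Fin (N + 1))

/-- The generic direction, over the ring of the parameter. -/
noncomputable def gv' (j : Fin (N + 1)) : MvPolynomial (Unk N k j0) (Polynomial ℂ) :=
  if h : j ≠ j0 then X (Sum.inl ⟨j, h⟩) else 0

/-- The generic restriction, over the ring of the parameter. -/
noncomputable def gP' (f : MvPolynomial (Fin (N + 1)) (Polynomial ℂ)) :
    Polynomial (MvPolynomial (Unk N k j0) (Polynomial ℂ)) :=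
  eval₂Hom ((Polynomial.C : MvPolynomial (Unk N k j0) (Polynomial ℂ) →+* _).comp C)
    (fun j => Polynomial.C (C (Polynomial.C (p j))) * Polynomial.X +
      Polynomial.C (gv' (k := k) j0 j)) f

/-- The generic monic polynomial, over the ring of the parameter. -/
noncomputable def gH' : Polynomial (MvPolynomial (Unk N k j0) (Polynomial ℂ)) :=
  Polynomial.X ^ k + ∑ j : Fin k, Polynomial.C (X (Sum.inr j)) * Polynomial.X ^ (j : ℕ)

lemma gH'_monic : (gH' (N := N) (k := k) j0).Monic := Polynomial.monic_X_pow_add (degree_tail _)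

lemma ev_C (z : ℂ) (x : Unk N k j0 → ℂ) (r : Polynomial ℂ) : ev z x (C r) = r.eval z := by
  simp [ev]

lemma ev_X (z : ℂ) (x : Unk N k j0 → ℂ) (i : Unk N k j0) : ev z x (X i) = x i := by
  simp [ev]

lemma map_gH' (z : ℂ) (x : Unk N k j0 → ℂ) : (gH' j0).map (ev z x) = pol j0 x := by
  simp [gH', pol, Polynomial.map_sum, ev_X]

lemma map_gP' (z : ℂ) (x : Unk N k j0 → ℂ) (f : MvPolynomial (Fin (N + 1)) (Polynomial ℂ)) :
    (gP' (k := k) p j0 f).map (ev z x) =
      dehom (onLine p (dir j0 x) (map (Polynomial.evalRingHom z) f)) := by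
  rw [dehom_onLine]
  have h : (Polynomial.mapRingHom (ev z x)).comp
      (eval₂Hom ((Polynomial.C : MvPolynomial (Unk N k j0) (Polynomial ℂ) →+* _).comp C)
        (fun j => Polynomial.C (C (Polynomial.C (p j))) * Polynomial.X +
          Polynomial.C (gv' (k := k) j0 j))) =
      ((aeval (fun j => Polynomial.C (p j) * Polynomial.X + Polynomial.C (dir j0 x j)) :
        MvPolynomial (Fin (N + 1)) ℂ →ₐ[ℂ] Polynomial ℂ) :
          MvPolynomial (Fin (N + 1)) ℂ →+* Polynomial ℂ).comp
        (map (Polynomial.evalRingHom z)) := by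
    apply MvPolynomial.ringHom_ext
    · intro r
      simp only [RingHom.comp_apply, eval₂Hom_C, Polynomial.coe_mapRingHom, Polynomial.map_C,
        map_C, RingHom.coe_coe, ev_C, Polynomial.coe_evalRingHom]
      rw [← MvPolynomial.algebraMap_eq, AlgHom.commutes, Polynomial.algebraMap_eq]
    · intro j
      simp only [RingHom.comp_apply, eval₂Hom_X', Polynomial.coe_mapRingHom, Polynomial.map_add,
        Polynomial.map_mul, Polynomial.map_C, Polynomial.map_X, map_X, RingHom.coe_coe, aeval_X,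
        ev_C, Polynomial.eval_C]
      congr 2
      simp only [gv', dir]
      split_ifs with hj
      · rw [ev_X]
      · rw [map_zero]
  exact DFunLike.congr_fun h f

end

/-- Scaling of the unknowns. -/
lemma scale_dvd {N k e : ℕ} (p : Fin (N + 1) → ℂ) (j0 : Fin (N + 1))
    (f : MvPolynomial (Fin (N + 1)) ℂ) (hf : f.IsHomogeneous e) (w : Unk N k j0 → ℕ)
    (hw1 : ∀ j, w (Sum.inl j) = 1) (hw2 : ∀ l : Fin k, w (Sum.inr l) = k - (l : ℕ))
    (y : Unk N k j0 → ℂ) (c : ℂ) (hc : c ≠ 0) (h : pol j0 y ∣ dehom (onLine p (dir j0 y) f)) :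
    pol j0 (fun i => c ^ w i * y i) ∣ dehom (onLine p (dir j0 (fun i => c ^ w i * y i)) f) := by
  obtain ⟨Q, hQ⟩ := h
  refine ⟨Polynomial.C (c ^ e * (c ^ k)⁻¹) * Q.comp (Polynomial.C c⁻¹ * Polynomial.X), ?_⟩
  apply Polynomial.funext
  intro s
  have hdir : dir j0 (fun i => c ^ w i * y i) = fun j => c * dir j0 y j := by
    funext j
    simp only [dir]
    split_ifs with hj
    · rw [hw1, pow_one]
    · rw [mul_zero]
  have hpol : (pol j0 (fun i => c ^ w i * y i)).eval s = c ^ k * (pol j0 y).eval (c⁻¹ * s) := by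
    simp only [pol, Polynomial.eval_add, Polynomial.eval_pow, Polynomial.eval_X,
      Polynomial.eval_finsetSum, Polynomial.eval_mul, Polynomial.eval_C, mul_add, Finset.mul_sum,
      hw2]
    congr 1
    · rw [mul_pow, ← mul_assoc, ← mul_pow, mul_inv_cancel₀ hc, one_pow, one_mul]
    · refine Finset.sum_congr rfl fun l _ => ?_
      have hl : c ^ k = c ^ (k - (l : ℕ)) * c ^ (l : ℕ) := by
        rw [← pow_add, Nat.sub_add_cancel l.2.le]
      rw [hl, mul_pow]
      have h1 : c ^ (l : ℕ) * (c⁻¹) ^ (l : ℕ) = 1 := by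
        rw [← mul_pow, mul_inv_cancel₀ hc, one_pow]
      linear_combination (-(c ^ (k - (l : ℕ)) * y (Sum.inr l) * s ^ (l : ℕ))) * h1
  have hQs := congrArg (Polynomial.eval (c⁻¹ * s)) hQ
  rw [dehom_eval, onLine_eval, Polynomial.eval_mul] at hQs
  rw [dehom_eval, onLine_eval, Polynomial.eval_mul, hpol, Polynomial.eval_mul, Polynomial.eval_C,
    Polynomial.eval_comp, Polynomial.eval_mul, Polynomial.eval_C, Polynomial.eval_X, hdir]
  simp only [Matrix.cons_val_zero, Matrix.cons_val_one, one_mul] at hQs ⊢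
  have h2 := eval_smul_hom hf c (fun j => c⁻¹ * s * p j + dir j0 y j)
  have h3 : (fun j => c * (c⁻¹ * s * p j + dir j0 y j)) = fun j => s * p j + c * dir j0 y j := by
    funext j
    field_simp
  rw [h3, hQs] at h2
  rw [h2]
  have h4 : c ^ k ≠ 0 := pow_ne_zero _ hc
  field_simp

set_option linter.unusedVariables false in
/-- A family of forms `G i` with coefficients polynomial in a parameter `z`. If for infinitely many
`z` there is a multisecant line through `p`, then there is one for `z = 1`, when `p` is not a common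
zero for `z = 1`. -/
theorem spec {N k m : ℕ} (G : Fin m → MvPolynomial (Fin (N + 1)) (Polynomial ℂ)) (d : Fin m → ℕ)
    (hG : ∀ i, (G i).IsHomogeneous (d i)) (hd : ∀ i, k ≤ d i)
    (p : Fin (N + 1) → ℂ) (j0 : Fin (N + 1))
    (hinf : {z : ℂ | ∃ v H, Sec k (fun i => map (Polynomial.evalRingHom z) (G i)) p j0 v H}.Infinite)
    (hp : ∃ i, eval p (map (Polynomial.evalRingHom 1) (G i)) ≠ 0) :
    ∃ v H, Sec k (fun i => map (Polynomial.evalRingHom 1) (G i)) p j0 v H := by
  classical
  by_contra hno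
  let F : Fin m × Fin k → MvPolynomial (Unk N k j0) (Polynomial ℂ) := fun il =>
    (gP' p j0 (G il.1) %ₘ gH' j0).coeff il.2
  have hGz : ∀ (z : ℂ) i, (map (Polynomial.evalRingHom z) (G i)).IsHomogeneous (d i) :=
    fun z i => (hG i).map _
  have hFe : ∀ (z : ℂ) (x : Unk N k j0 → ℂ) (i : Fin m) (l : Fin k), ev z x (F (i, l)) =
      (dehom (onLine p (dir j0 x) (map (Polynomial.evalRingHom z) (G i))) %ₘ
        pol j0 x).coeff l := by
    intro z x i l
    rw [← map_gP', ← map_gH' j0 z, ← Polynomial.map_modByMonic _ (gH'_monic j0),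
      Polynomial.coeff_map]
  have hzero : ∀ (z : ℂ) (x : Unk N k j0 → ℂ), (∀ j, ev z x (F j) = 0) ↔
      ∀ i, pol j0 x ∣ dehom (onLine p (dir j0 x) (map (Polynomial.evalRingHom z) (G i))) := by
    intro z x
    constructor
    · intro hx i
      rw [← Polynomial.modByMonic_eq_zero_iff_dvd (pol_monic j0 x)]
      ext l
      rw [Polynomial.coeff_zero]
      by_cases hl : l < k
      · rw [← hFe z x i ⟨l, hl⟩]
        exact hx _
      · apply Polynomial.coeff_eq_zero_of_degree_lt
        refine (Polynomial.degree_modByMonic_lt _ (pol_monic j0 x)).trans_le ?_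
        rw [Polynomial.degree_eq_natDegree (pol_monic j0 x).ne_zero, pol_natDegree]
        exact_mod_cast (not_lt.1 hl)
    · rintro hx ⟨i, l⟩
      rw [hFe, (Polynomial.modByMonic_eq_zero_iff_dvd (pol_monic j0 x)).2 (hx i),
        Polynomial.coeff_zero]
  let w : Unk N k j0 → ℕ := fun u => match u with
    | Sum.inl _ => 1
    | Sum.inr l => k - (l : ℕ)
  have hw : ∀ i, 0 < w i := by
    rintro (j | l)
    · exact Nat.one_pos
    · exact Nat.sub_pos_of_lt l.2
  have hinv : ∀ (z : ℂ) (y : Unk N k j0 → ℂ) (c : ℂ), (∀ j, ev z y (F j) = 0) → c ≠ 0 →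
      ∀ j, ev z (fun i => c ^ w i * y i) (F j) = 0 := by
    intro z y c hy hc
    rw [hzero] at hy ⊢
    intro i
    exact scale_dvd p j0 _ (hGz z i) w (fun _ => rfl) (fun _ => rfl) y c hc (hy i)
  have h1 : ∀ y : Unk N k j0 → ℂ, (∀ j, ev 1 y (F j) = 0) → y = 0 := by
    intro y hy
    rw [hzero] at hy
    by_cases hv : dir j0 y = 0
    · obtain ⟨i, hi⟩ := hp
      have h1 := hy i
      have hline0 : dehom (onLine p 0 (map (Polynomial.evalRingHom 1) (G i))) =
          Polynomial.C (eval p (map (Polynomial.evalRingHom 1) (G i))) * Polynomial.X ^ (d i) := by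
        apply Polynomial.funext
        intro s
        rw [dehom_eval, onLine_eval, Polynomial.eval_mul, Polynomial.eval_C, Polynomial.eval_pow,
          Polynomial.eval_X]
        have := eval_smul_hom (hGz 1 i) s p
        simp only [Matrix.cons_val_zero, Matrix.cons_val_one, Pi.zero_apply, mul_zero, add_zero]
        rw [this]; ring
      rw [hv, hline0] at h1
      have h2 : pol j0 y ∣ Polynomial.X ^ (d i) := by
        have hu : IsUnit (Polynomial.C (eval p (map (Polynomial.evalRingHom 1) (G i)))) := by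
          rw [Polynomial.isUnit_C]; exact isUnit_iff_ne_zero.2 hi
        exact (hu.dvd_mul_left).1 h1
      obtain ⟨e, _, he⟩ := (dvd_prime_pow Polynomial.prime_X _).1 h2
      have h3 : pol j0 y = Polynomial.X ^ e :=
        Polynomial.eq_of_monic_of_associated (pol_monic j0 y) (Polynomial.monic_X_pow e) he
      have h4 : e = k := by
        have := pol_natDegree j0 y
        rw [h3, Polynomial.natDegree_X_pow] at this
        exact this
      funext u
      rcases u with ⟨j, hj⟩ | l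
      · have h5 := congrFun hv j
        simpa [dir, hj] using h5
      · have h5 := pol_coeff j0 y l
        rw [h3, h4, Polynomial.coeff_X_pow, if_neg (ne_of_lt l.2)] at h5
        simpa using h5.symm
    · exact absurd ⟨dir j0 y, pol j0 y, by simp [dir], hv, pol_monic j0 y, pol_natDegree j0 y, hy⟩
        hno
  obtain ⟨g, hg1, hg⟩ := elim w hw F hinv h1
  have hg0 : g ≠ 0 := by
    rintro rfl
    simp at hg1
  obtain ⟨z, ⟨v, H, hv0, hv, hH, hHk, hdvd⟩, hgz⟩ : ∃ z : ℂ,
      (∃ v H, Sec k (fun i => map (Polynomial.evalRingHom z) (G i)) p j0 v H) ∧ g.eval z ≠ 0 := by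
    by_contra hcon
    push Not at hcon
    apply hinf
    refine (g.rootSet_finite ℂ).subset fun z hz => ?_
    rw [Polynomial.mem_rootSet]
    exact ⟨hg0, by simpa [Polynomial.coe_aeval_eq_eval] using hcon z hz⟩
  let y : Unk N k j0 → ℂ := fun u => match u with
    | Sum.inl j => v j.1
    | Sum.inr l => H.coeff (l : ℕ)
  have hdy : dir j0 y = v := by
    funext j
    simp only [dir]
    split_ifs with hj
    · rfl
    · rw [not_not] at hj
      rw [hj, hv0]
  have hpy : pol j0 y = H := by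
    ext l
    rcases lt_trichotomy l k with hl | hl | hl
    · have := pol_coeff j0 y ⟨l, hl⟩
      exact this
    · have h5 := (pol_monic j0 y).coeff_natDegree
      rw [pol_natDegree] at h5
      have h6 := hH.coeff_natDegree
      rw [hHk] at h6
      rw [hl, h5, h6]
    · rw [Polynomial.coeff_eq_zero_of_natDegree_lt (by rw [pol_natDegree]; exact hl),
        Polynomial.coeff_eq_zero_of_natDegree_lt (by rw [hHk]; exact hl)]
  have hy0 := hg z hgz y (by
    rw [hzero]
    intro i
    rw [hdy, hpy]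
    exact hdvd i)
  apply hv
  rw [← hdy, hy0]
  funext j
  simp [dir]

/-- Normalised version. -/
lemma good_of_sec {N k m : ℕ} (f : Fin m → MvPolynomial (Fin (N + 1)) ℂ) (d : Fin m → ℕ)
    (hf : ∀ i, (f i).IsHomogeneous (d i)) (hd : ∀ i, k ≤ d i)
    (p : Fin (N + 1) → ℂ) (j0 : Fin (N + 1)) (hs : ∃ v H, Sec k f p j0 v H) :
    ∃ v : Fin (N + 1) → ℂ, v j0 = 0 ∧ ‖v‖ = 1 ∧ ∃ a b, ‖a‖ = 1 ∧ Good k d f p v a b := by
  obtain ⟨v, H, hv0, hv, hH, hHk, hdvd⟩ := hs
  choose Q hQ using hdvd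
  have hvn : ‖v‖ ≠ 0 := norm_ne_zero_iff.2 hv
  have hQd : ∀ i, (Q i).natDegree ≤ d i - k := by
    intro i
    by_cases hQ0 : Q i = 0
    · simp [hQ0]
    · have h1 := natDegree_dehom (onLine_hom p v (hf i))
      rw [hQ i, hH.natDegree_mul' hQ0, hHk] at h1
      omega
  have hkey : ∀ i (x : Fin 2 → ℂ), eval x (hm k H) * eval x (hm (d i - k) (Q i)) =
      eval (fun j => x 0 * p j + x 1 * v j) (f i) := by
    intro i x
    rw [← map_mul, ← hm_mul (le_of_eq hHk) (hQd i), Nat.add_sub_cancel' (hd i), ← hQ i,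
      hm_dehom (onLine_hom p v (hf i)), onLine_eval]
  set c : ℂ := ((‖v‖⁻¹ : ℝ) : ℂ) with hc
  have hcn : ‖c‖ = ‖v‖⁻¹ := by
    rw [hc, Complex.norm_real, Real.norm_eq_abs, abs_of_nonneg (by positivity)]
  set a1 : Fin (k + 1) → ℂ := fun j => H.coeff j * c ^ (k - (j : ℕ)) with ha1
  set b1 : ∀ i, Fin (d i - k + 1) → ℂ := fun i j => (Q i).coeff j * c ^ (d i - k - (j : ℕ)) with hb1
  have ha1n : ‖a1‖ ≠ 0 := by
    rw [norm_ne_zero_iff]
    intro h
    have h1 := congrFun h (Fin.last k)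
    simp only [ha1, Fin.val_last, Nat.sub_self, pow_zero, mul_one, Pi.zero_apply] at h1
    rw [← hHk, hH.coeff_natDegree] at h1
    exact one_ne_zero h1
  set e : ℂ := ((‖a1‖⁻¹ : ℝ) : ℂ) with he
  have hen : ‖e‖ = ‖a1‖⁻¹ := by
    rw [he, Complex.norm_real, Real.norm_eq_abs, abs_of_nonneg (by positivity)]
  have he0 : e ≠ 0 := by
    rw [← norm_ne_zero_iff, hen]; exact inv_ne_zero ha1n
  refine ⟨c • v, ?_, ?_, e • a1, fun i => e⁻¹ • b1 i, ?_, ?_⟩
  · simp [hv0]
  · rw [norm_smul, hcn]; exact inv_mul_cancel₀ hvn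
  · rw [norm_smul, hen]; exact inv_mul_cancel₀ ha1n
  · intro i s t
    rw [form_smul, form_smul, ha1, hb1]
    simp only
    rw [form_scale k c (fun j => H.coeff j), form_scale (d i - k) c (fun j => (Q i).coeff j)]
    have h1 := form_of_poly (e := k) (P := H) ![s, t * c]
    have h2 := form_of_poly (e := d i - k) (P := Q i) ![s, t * c]
    simp only [Matrix.cons_val_zero, Matrix.cons_val_one] at h1 h2
    rw [h1, h2]
    have h3 := hkey i ![s, t * c]
    simp only [Matrix.cons_val_zero, Matrix.cons_val_one] at h3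
    have h4 : (fun j => s * p j + t * (c • v) j) = fun j => s * p j + t * c * v j := by
      funext j; simp [mul_assoc]
    rw [h4, ← h3]
    field_simp

/-- The closure argument. -/
theorem good_all_of_off {N k m : ℕ} (f : Fin m → MvPolynomial (Fin (N + 1)) ℂ) (d : Fin m → ℕ)
    (hf : ∀ i, (f i).IsHomogeneous (d i)) (hd : ∀ i, k ≤ d i) (hne : ∃ i, f i ≠ 0)
    (p : Fin (N + 1) → ℂ) (j0 : Fin (N + 1))
    (hoff : ∀ q : Fin (N + 1) → ℂ, q j0 ≠ 0 → (∃ i, eval q (f i) ≠ 0) → ∃ v H, Sec k f q j0 v H) :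
    ∃ v : Fin (N + 1) → ℂ, v j0 = 0 ∧ ‖v‖ = 1 ∧ ∃ a b, ‖a‖ = 1 ∧ Good k d f p v a b := by
  obtain ⟨i0, hi0⟩ := hne
  have hF : f i0 * X j0 ≠ 0 := mul_ne_zero hi0 (X_ne_zero _)
  have hseq : ∀ n : ℕ, ∃ q : Fin (N + 1) → ℂ, ‖q - p‖ ≤ 1 / ((n : ℝ) + 1) ∧
      eval q (f i0 * X j0) ≠ 0 := fun n => exists_near hF p (by positivity)
  choose q hq hqi using hseq
  have hqi1 : ∀ n, eval (q n) (f i0) ≠ 0 := fun n h => hqi n (by rw [map_mul, h, zero_mul])
  have hqi2 : ∀ n, q n j0 ≠ 0 := fun n h => hqi n (by rw [map_mul, eval_X, h, mul_zero])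
  have hq' : Filter.Tendsto q Filter.atTop (nhds p) := by
    rw [tendsto_iff_norm_sub_tendsto_zero]
    refine squeeze_zero (fun n => norm_nonneg _) hq ?_
    exact tendsto_one_div_add_atTop_nhds_zero_nat
  have hq1 : ∀ n, ‖q n - p‖ ≤ 1 := by
    intro n
    refine (hq n).trans ?_
    rw [div_le_one (by positivity)]
    have : (0 : ℝ) ≤ n := Nat.cast_nonneg n
    linarith
  have hgood := fun n => good_of_sec f d hf hd (q n) j0 (hoff (q n) (hqi2 n) ⟨i0, hqi1 n⟩)
  choose v hv0 hv1 a b ha hg using hgood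
  choose M hM using fun i : Fin m => cofactor_bound (k := k) f d p i
  obtain ⟨v', a', b', φ, hφ, hv', ha', h1, h2, h3⟩ := subseq_lemma d M v a b hv1 ha
    (fun n i => hM i (q n) (v n) (a n) (b n) (hq1 n) (hv1 n) (ha n) (hg n))
  refine ⟨v', ?_, hv', a', b', ha', ?_⟩
  · have h4 : Filter.Tendsto (fun n => v (φ n) j0) Filter.atTop (nhds (v' j0)) :=
      tendsto_pi_nhds.1 h1 j0
    have h5 : (fun n => v (φ n) j0) = fun _ => (0 : ℂ) := by funext n; exact hv0 _
    rw [h5] at h4
    exact tendsto_nhds_unique tendsto_const_nhds h4 |>.symm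
  · exact good_closed f d (fun n => q (φ n)) (fun n => v (φ n)) (fun n => a (φ n))
      (fun n => b (φ n)) (fun n => hg _) p v' a' b' (hq'.comp hφ.tendsto_atTop) h1 h2 h3

/-- The closure argument. -/
theorem fill_of_off {N k m : ℕ} (f : Fin m → MvPolynomial (Fin (N + 1)) ℂ) (d : Fin m → ℕ)
    (hf : ∀ i, (f i).IsHomogeneous (d i)) (hd : ∀ i, k ≤ d i) (hne : ∃ i, f i ≠ 0)
    (p : Fin (N + 1) → ℂ) (j0 : Fin (N + 1)) (hp : p j0 ≠ 0)
    (hoff : ∀ q : Fin (N + 1) → ℂ, q j0 ≠ 0 → (∃ i, eval q (f i) ≠ 0) → ∃ v H, Sec k f q j0 v H) :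
    ∃ v : Fin (N + 1) → ℂ, LinearIndependent ℂ ![p, v] ∧
      ∃ h : MvPolynomial (Fin 2) ℂ, h.IsHomogeneous k ∧ h ≠ 0 ∧
        ∀ F ∈ Ideal.span (Set.range f), h ∣ onLine p v F := by
  obtain ⟨v, hv0, hv1, a, b, ha, hg⟩ := good_all_of_off f d hf hd hne p j0 hoff
  have hv : v ≠ 0 := by
    intro h; rw [h, norm_zero] at hv1; exact zero_ne_one hv1
  have ha0 : a ≠ 0 := by
    intro h; rw [h, norm_zero] at ha; exact zero_ne_one ha
  have hlin : LinearIndependent ℂ ![p, v] := by
    rw [LinearIndependent.pair_iff]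
    intro s t hst
    have h1 := congrFun hst j0
    simp only [Pi.add_apply, Pi.smul_apply, smul_eq_mul, hv0, mul_zero, add_zero,
      Pi.zero_apply] at h1
    have hs : s = 0 := (mul_eq_zero.1 h1).resolve_right hp
    rw [hs, zero_smul, zero_add] at hst
    exact ⟨hs, (smul_eq_zero.1 hst).resolve_right hv⟩
  refine ⟨v, hlin, formP k a, formP_hom k a, formP_ne_zero ha0, fun F hF => ?_⟩
  have hfi : ∀ i, formP k a ∣ onLine p v (f i) := by
    intro i
    refine ⟨formP (d i - k) (b i), ?_⟩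
    apply MvPolynomial.funext
    intro x
    rw [onLine_eval, map_mul, formP_eval, formP_eval]
    exact (hg i (x 0) (x 1)).symm
  have hle : Ideal.span (Set.range f) ≤
      (Ideal.span {formP k a}).comap (onLine p v : MvPolynomial (Fin (N + 1)) ℂ →+*
        MvPolynomial (Fin 2) ℂ) := by
    rw [Ideal.span_le]
    rintro _ ⟨i, rfl⟩
    exact Ideal.mem_span_singleton.2 (hfi i)
  exact Ideal.mem_span_singleton.1 (hle hF)

end Pool.Agent.SecPf
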