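import Mathlib

/-!
# Solutions of a system for small values of a parameter
-/

set_option autoImplicit false

open Filter Topology MvPolynomial

namespace Pool.Agent.SecPf

/-- If the derivative in the unknown `u` at `(0, u0)` is onto, a zero `u0` for the parameter `0`
extends to zeros near `u0` for all small parameters. -/
lemma ift {U V : Type} [NormedAddCommGroup U] [NormedSpace ℂ U] [CompleteSpace U]
    [NormedAddCommGroup V] [NormedSpace ℂ V] [CompleteSpace V] (Φ : ℂ × U → V) (u0 : U)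
    (hΦ : ContDiffAt ℂ 1 Φ (0, u0)) (h0 : Φ (0, u0) = 0)
    (hs : ∀ R : V, ∃ δ : U, HasDerivAt (fun t : ℂ => Φ (0, u0 + t • δ)) R 0)
    (O : Set U) (hO : O ∈ 𝓝 u0) : ∀ᶠ z in 𝓝 (0 : ℂ), ∃ u ∈ O, Φ (z, u) = 0 := by
  have h1 : HasStrictFDerivAt Φ (fderiv ℂ Φ (0, u0)) (0, u0) :=
    hΦ.hasStrictFDerivAt one_ne_zero
  set L := fderiv ℂ Φ (0, u0) with hL
  let Ψ : ℂ × U → ℂ × V := fun x => (x.1, Φ x)
  have h2 : HasStrictFDerivAt Ψ ((ContinuousLinearMap.fst ℂ ℂ U).prod L) (0, u0) :=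
    hasStrictFDerivAt_fst.prodMk h1
  have hder : ∀ R : V, ∃ δ : U, L (0, δ) = R := by
    intro R
    obtain ⟨δ, hδ⟩ := hs R
    refine ⟨δ, ?_⟩
    have h3 : HasDerivAt (fun t : ℂ => ((0 : ℂ), u0 + t • δ)) ((0 : ℂ), δ) 0 := by
      refine (hasDerivAt_const (0 : ℂ) (0 : ℂ)).prodMk ?_
      have := ((hasDerivAt_id (0 : ℂ)).smul_const δ).const_add u0
      simpa using this
    have h4 : HasFDerivAt Φ L ((0 : ℂ), u0 + (0 : ℂ) • δ) := by
      rw [zero_smul, add_zero]; exact h1.hasFDerivAt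
    have h5 := h4.comp_hasDerivAt (0 : ℂ) h3
    exact h5.unique hδ
  have hsurj : ((ContinuousLinearMap.fst ℂ ℂ U).prod L).range = ⊤ := by
    rw [LinearMap.range_eq_top]
    rintro ⟨ζ, R⟩
    obtain ⟨δ, hδ⟩ := hder (R - L (ζ, 0))
    refine ⟨(ζ, δ), ?_⟩
    have : ((ζ, δ) : ℂ × U) = (ζ, 0) + (0, δ) := by simp
    ext
    · simp
    · show L (ζ, δ) = R
      rw [this, map_add, hδ]; abel
  have h6 := h2.map_nhds_eq_of_surj hsurj
  have h7 : (Set.univ : Set ℂ) ×ˢ O ∈ 𝓝 ((0 : ℂ), u0) := prod_mem_nhds univ_mem hO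
  have h8 : Ψ '' ((Set.univ : Set ℂ) ×ˢ O) ∈ 𝓝 (Ψ (0, u0)) := by
    rw [← h6]; exact image_mem_map h7
  have h9 : Ψ (0, u0) = (0, 0) := by simp [Ψ, h0]
  rw [h9] at h8
  have h10 : Tendsto (fun z : ℂ => (z, (0 : V))) (𝓝 0) (𝓝 (0, 0)) :=
    (continuous_id.prodMk continuous_const).tendsto' _ _ rfl
  filter_upwards [h10 h8] with z hz
  obtain ⟨⟨z', u⟩, hu, hzu⟩ := hz
  have e1 : z' = z := congrArg Prod.fst hzu
  have e2 : Φ (z', u) = 0 := congrArg Prod.snd hzu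
  exact ⟨u, hu.2, by rw [← e1]; exact e2⟩

lemma hasDerivAt_mul_id {g : ℂ → ℂ} (hg : ContinuousAt g 0) {a : ℂ} (ha : g 0 = a) :
    HasDerivAt (fun t => t * g t) a 0 := by
  rw [hasDerivAt_iff_tendsto_slope]
  have h1 : Tendsto g (𝓝[≠] 0) (𝓝 a) := ha ▸ hg.tendsto.mono_left nhdsWithin_le_nhds
  refine h1.congr' ?_
  filter_upwards [self_mem_nhdsWithin] with t ht
  have ht' : t ≠ 0 := ht
  rw [slope_def_field]
  field_simp
  simp

lemma contDiff_eval {ι : Type} [Fintype ι] (P : MvPolynomial ι ℂ) :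
    ContDiff ℂ 1 (fun x : ι → ℂ => eval x P) := by
  induction P using MvPolynomial.induction_on with
  | C a => simpa using contDiff_const
  | add p q hp hq => simpa using hp.add hq
  | mul_X p i hp => simpa using hp.mul (contDiff_apply ℂ ℂ i)

end Pool.Agent.SecPf
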