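import Pool.Agent.SecPf.Pf
import Pool.Agent.SecPf.Ift

/-!
# A skew-symmetric matrix of forms with `k` independent rank drops on a line
-/

set_option autoImplicit false

open Filter Topology MvPolynomial

namespace Pool.Agent.SecPf

/-- Labels of the rows and columns of a matrix of size `2 r + 1`. -/
abbrev Idx (r : ℕ) : Type := Option (Fin r × Bool)

/-- The data of the construction. -/
structure Dat (N k r : ℕ) where
  p : Fin (N + 1) → ℂ
  j0 : Fin (N + 1)
  hp : p j0 ≠ 0
  D : Fin r → ℕ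
  E : Fin r × Bool → ℕ
  e0 : Fin (N + 1)
  he0 : e0 ≠ j0
  e : Fin k × Bool → Fin (N + 1)
  he : Function.Injective e
  hej : ∀ m, e m ≠ j0
  hee : ∀ m, e m ≠ e0
  θ : (Σ i, Fin (D i)) → ℂ
  hθ : Function.Injective θ
  ρ : Fin k → Σ i, Fin (D i)
  hρ : Function.Injective ρ
  B : Matrix (Idx r) (Idx r) (MvPolynomial (Fin (N + 1)) ℂ)
  hB : ∀ x y, B y x = - B x y

namespace Dat

variable {N k r : ℕ} (S : Dat N k r)

/-- the parameter along the line -/
noncomputable def sg : MvPolynomial (Fin (N + 1)) ℂ := C (S.p S.j0)⁻¹ * X S.j0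

/-- linear forms which vanish at `p` -/
noncomputable def et (j : Fin (N + 1)) : MvPolynomial (Fin (N + 1)) ℂ :=
  X j - C (S.p j / S.p S.j0) * X S.j0

noncomputable def lin (t : ℂ) : MvPolynomial (Fin (N + 1)) ℂ := S.sg - C t * S.et S.e0

noncomputable def aP (i : Fin r) : MvPolynomial (Fin (N + 1)) ℂ :=
  ∏ b : Fin (S.D i), S.lin (S.θ ⟨i, b⟩)

noncomputable def qP (j : Fin k) : MvPolynomial (Fin (N + 1)) ℂ :=
  ∏ b ∈ Finset.univ.erase (S.ρ j).2, S.lin (S.θ ⟨(S.ρ j).1, b⟩)

noncomputable def sP (x : Fin r × Bool) : MvPolynomial (Fin (N + 1)) ℂ :=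
  ∑ j : Fin k, if (S.ρ j).1 = x.1 then
    S.et (S.e (j, x.2)) * S.qP j * S.et S.e0 ^ (S.E x - S.D x.1) else 0

/-- the base matrix -/
noncomputable def A0 : Matrix (Idx r) (Idx r) (MvPolynomial (Fin (N + 1)) ℂ) := fun x y =>
  match x, y with
  | some (i, false), some (i', true) => if i = i' then S.aP i else 0
  | some (i, true), some (i', false) => if i = i' then - S.aP i else 0
  | some x, none => S.sP x
  | none, some x => - S.sP x
  | _, _ => 0

lemma A0_skew (x y : Idx r) : S.A0 y x = - S.A0 x y := by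
  rcases x with _ | ⟨i, _ | _⟩ <;> rcases y with _ | ⟨i', _ | _⟩ <;> simp only [A0, neg_neg, neg_zero]
  · split_ifs with h1 h2 h2
    · subst h1; rfl
    · exact absurd h1.symm h2
    · exact absurd h2.symm h1
    · simp
  · split_ifs with h1 h2 h2
    · subst h1; simp
    · exact absurd h1.symm h2
    · exact absurd h2.symm h1
    · simp

/-- the direction -/
noncomputable def vv (ξ : Fin k × Bool → ℂ) : Fin (N + 1) → ℂ :=
  fun i => (if i = S.e0 then 1 else 0) + ∑ m : Fin k × Bool, if i = S.e m then ξ m else 0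

lemma vv_j0 (ξ : Fin k × Bool → ℂ) : S.vv ξ S.j0 = 0 := by
  rw [vv, if_neg (fun h => S.he0 h.symm), zero_add]
  exact Finset.sum_eq_zero fun m _ => if_neg (fun h => S.hej m h.symm)

lemma vv_e0 (ξ : Fin k × Bool → ℂ) : S.vv ξ S.e0 = 1 := by
  rw [vv, if_pos rfl, Finset.sum_eq_zero fun m _ => if_neg (fun h => S.hee m h.symm), add_zero]

lemma vv_e (ξ : Fin k × Bool → ℂ) (m : Fin k × Bool) : S.vv ξ (S.e m) = ξ m := by
  rw [vv, if_neg (S.hee m), zero_add, Finset.sum_eq_single m]
  · rw [if_pos rfl]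
  · intro m' _ hm'
    exact if_neg (fun h => hm' (S.he h).symm)
  · intro h; exact absurd (Finset.mem_univ _) h

/-- the point -/
noncomputable def pt (τ : ℂ) (ξ : Fin k × Bool → ℂ) : Fin (N + 1) → ℂ :=
  fun i => τ * S.p i + S.vv ξ i

lemma eval_sg (τ : ℂ) (ξ : Fin k × Bool → ℂ) : eval (S.pt τ ξ) S.sg = τ := by
  simp only [sg, map_mul, eval_C, eval_X, pt, vv_j0, add_zero]
  field_simp [S.hp]

lemma eval_et (τ : ℂ) (ξ : Fin k × Bool → ℂ) (j : Fin (N + 1)) :
    eval (S.pt τ ξ) (S.et j) = S.vv ξ j := by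
  have := S.hp
  simp only [et, map_sub, map_mul, eval_C, eval_X, pt, vv_j0, add_zero]
  field_simp
  ring

lemma eval_lin (τ : ℂ) (ξ : Fin k × Bool → ℂ) (t : ℂ) : eval (S.pt τ ξ) (S.lin t) = τ - t := by
  rw [lin, map_sub, map_mul, eval_sg, eval_C, eval_et, vv_e0, mul_one]

noncomputable def av (i : Fin r) (τ : ℂ) : ℂ := ∏ b : Fin (S.D i), (τ - S.θ ⟨i, b⟩)

noncomputable def qv (j : Fin k) (τ : ℂ) : ℂ :=
  ∏ b ∈ Finset.univ.erase (S.ρ j).2, (τ - S.θ ⟨(S.ρ j).1, b⟩)

lemma eval_aP (τ : ℂ) (ξ : Fin k × Bool → ℂ) (i : Fin r) :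
    eval (S.pt τ ξ) (S.aP i) = S.av i τ := by
  simp only [aP, av, map_prod, eval_lin]

lemma eval_qP (τ : ℂ) (ξ : Fin k × Bool → ℂ) (j : Fin k) :
    eval (S.pt τ ξ) (S.qP j) = S.qv j τ := by
  simp only [qP, qv, map_prod, eval_lin]

lemma eval_sP (τ : ℂ) (ξ : Fin k × Bool → ℂ) (x : Fin r × Bool) :
    eval (S.pt τ ξ) (S.sP x) = ∑ j : Fin k, if (S.ρ j).1 = x.1 then ξ (j, x.2) * S.qv j τ else 0 := by
  rw [sP, map_sum]
  refine Finset.sum_congr rfl fun j _ => ?_
  split_ifs with h
  · rw [map_mul, map_mul, map_pow, eval_et, eval_et, eval_qP, vv_e, vv_e0, one_pow, mul_one]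
  · simp

/-- the root of index `j` -/
noncomputable def th (j : Fin k) : ℂ := S.θ (S.ρ j)

noncomputable def kap (j : Fin k) : ℂ := S.qv j (S.th j)

lemma kap_ne (j : Fin k) : S.kap j ≠ 0 := by
  rw [kap, qv, Finset.prod_ne_zero_iff]
  intro b hb h
  have h1 : S.θ (S.ρ j) = S.θ ⟨(S.ρ j).1, b⟩ := sub_eq_zero.1 h
  have h2 := S.hθ h1
  have h3 : (S.ρ j).2 = b := eq_of_heq (Sigma.ext_iff.1 h2).2
  exact (Finset.mem_erase.1 hb).1 h3.symm

lemma av_ne {j : Fin k} {i : Fin r} (hi : i ≠ (S.ρ j).1) : S.av i (S.th j) ≠ 0 := by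
  rw [av, Finset.prod_ne_zero_iff]
  intro b _ h
  have h1 : S.θ (S.ρ j) = S.θ ⟨i, b⟩ := sub_eq_zero.1 h
  have h2 := S.hθ h1
  exact hi (by rw [h2])

lemma qv_zero {j j' : Fin k} (h : j' ≠ j) (hi : (S.ρ j').1 = (S.ρ j).1) :
    S.qv j' (S.th j) = 0 := by
  have hex : ∀ (s : Σ i, Fin (S.D i)) (i : Fin r), i = s.1 → ∃ b, (⟨i, b⟩ : Σ i, Fin (S.D i)) = s := by
    rintro ⟨_, a⟩ _ rfl
    exact ⟨a, rfl⟩
  obtain ⟨b, hb⟩ := hex (S.ρ j) (S.ρ j').1 hi
  rw [qv, Finset.prod_eq_zero_iff]
  refine ⟨b, Finset.mem_erase.2 ⟨?_, Finset.mem_univ _⟩, ?_⟩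
  · rintro rfl
    exact h (S.hρ hb)
  · rw [hb, th, sub_self]

lemma av_eq (j : Fin k) (τ : ℂ) : S.av (S.ρ j).1 τ = (τ - S.th j) * S.qv j τ := by
  rw [av, qv, ← Finset.mul_prod_erase Finset.univ _ (Finset.mem_univ (S.ρ j).2)]
  rfl

/-- The space of the unknowns: parameters on the line, directions, kernel vectors. -/
abbrev Un (k r : ℕ) : Type :=
  (Fin k → ℂ) × (Fin k × Bool → ℂ) × (Fin k × Bool → Idx r → ℂ)

/-- The space of the equations. -/
abbrev Eq' (k r : ℕ) : Type := Fin k × Bool → Idx r → ℂ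

/-- The matrix at a point for the parameter `z`. -/
noncomputable def Mz (z τ : ℂ) (ξ : Fin k × Bool → ℂ) (x y : Idx r) : ℂ :=
  eval (S.pt τ ξ) (S.A0 x y) + z * eval (S.pt τ ξ) (S.B x y)

/-- The kernel vector. -/
noncomputable def wv (m : Fin k × Bool) (W : Idx r → ℂ) (y : Idx r) : ℂ :=
  if y = some ((S.ρ m.1).1, m.2) then 1
  else if y = some ((S.ρ m.1).1, !m.2) ∨ y = none then 0 else W y

/-- The unused equations. -/
def dum (m : Fin k × Bool) (x : Idx r) : Prop :=
  x = some ((S.ρ m.1).1, m.2) ∨ (m.2 = true ∧ x = some ((S.ρ m.1).1, false))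

instance (m : Fin k × Bool) (x : Idx r) : Decidable (S.dum m x) := by unfold dum; infer_instance

/-- The system. -/
noncomputable def Phi (q : ℂ × Un k r) : Eq' k r := fun m x =>
  if S.dum m x then q.2.2.2 m x
  else ∑ y, S.Mz q.1 (q.2.1 m.1) q.2.2.1 x y * S.wv m (q.2.2.2 m) y

/-- The base point. -/
noncomputable def u0 : Un k r := (S.th, 0, 0)

lemma contDiff_Phi : ContDiff ℂ 1 S.Phi := by
  rw [contDiff_pi]
  intro m
  rw [contDiff_pi]
  intro x
  unfold Phi
  split_ifs with h
  · fun_prop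
  · refine ContDiff.sum fun y _ => ?_
    have hpt : ContDiff ℂ 1 (fun q : ℂ × Un k r => S.pt (q.2.1 m.1) q.2.2.1) := by
      rw [contDiff_pi]
      intro i
      unfold pt vv
      refine ContDiff.add (by fun_prop) (ContDiff.add contDiff_const ?_)
      refine ContDiff.sum fun m' _ => ?_
      split_ifs
      · fun_prop
      · exact contDiff_const
    refine ContDiff.mul ?_ ?_
    · unfold Mz
      exact ((contDiff_eval _).comp hpt).add (contDiff_fst.mul ((contDiff_eval _).comp hpt))
    · unfold wv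
      split_ifs
      · exact contDiff_const
      · exact contDiff_const
      · fun_prop

/-- The value of the derivative. -/
noncomputable def val (δ : Un k r) (m : Fin k × Bool) (x : Idx r) : ℂ :=
  if S.dum m x then δ.2.2 m x
  else match x with
    | none => - (δ.2.1 m * S.kap m.1)
    | some (i, b) => if i = (S.ρ m.1).1 then - (δ.1 m.1 * S.kap m.1)
        else (if b then -1 else 1) * S.av i (S.th m.1) * δ.2.2 m (some (i, !b))

lemma continuous_qv (j : Fin k) : Continuous (S.qv j) := by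
  unfold qv
  exact continuous_finsetProd _ fun b _ => by fun_prop

lemma continuous_av (i : Fin r) : Continuous (S.av i) := by
  unfold av
  exact continuous_finsetProd _ fun b _ => by fun_prop

lemma wv_none (m : Fin k × Bool) (W : Idx r → ℂ) : S.wv m W none = 0 := by
  simp [wv]

lemma wv_self (m : Fin k × Bool) (W : Idx r → ℂ) : S.wv m W (some ((S.ρ m.1).1, m.2)) = 1 := by
  simp [wv]

lemma wv_other (m : Fin k × Bool) (W : Idx r → ℂ) (x : Fin r × Bool) (hx : x.1 ≠ (S.ρ m.1).1) :
    S.wv m W (some x) = W (some x) := by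
  rw [wv, if_neg, if_neg]
  · rintro (h | h)
    · exact hx (by rw [Option.some.inj h])
    · exact absurd h (by simp)
  · intro h
    exact hx (by rw [Option.some.inj h])

lemma wv_zero (m : Fin k × Bool) (x : Fin r × Bool) (hx : x ≠ ((S.ρ m.1).1, m.2)) :
    S.wv m (0 : Idx r → ℂ) (some x) = 0 := by
  rw [wv, if_neg]
  · split_ifs <;> rfl
  · intro h
    exact hx (Option.some.inj h)

lemma continuous_wv (m : Fin k × Bool) (W : Idx r → ℂ) (y : Idx r) :
    Continuous (fun t : ℂ => S.wv m (t • W) y) := by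
  unfold wv
  split_ifs
  · exact continuous_const
  · exact continuous_const
  · simp only [Pi.smul_apply, smul_eq_mul]
    fun_prop

/-- A row of the base matrix with label different from `none`. -/
lemma row_some (τ : ℂ) (ξ : Fin k × Bool → ℂ) (m : Fin k × Bool) (W : Idx r → ℂ) (i : Fin r)
    (b : Bool) : ∑ y, S.Mz 0 τ ξ (some (i, b)) y * S.wv m W y =
      (if b then -1 else 1) * S.av i τ * S.wv m W (some (i, !b)) := by
  rw [Fintype.sum_option, wv_none, mul_zero, zero_add, Finset.sum_eq_single (i, !b)]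
  · congr 1
    rw [Mz, zero_mul, add_zero]
    cases b
    · simp [A0, eval_aP]
    · simp [A0, eval_aP]
  · rintro ⟨i', b'⟩ _ hne
    have : S.A0 (some (i, b)) (some (i', b')) = 0 := by
      cases b <;> cases b' <;> simp only [A0]
      · rw [if_neg]; rintro rfl; exact hne rfl
      · rw [if_neg]; rintro rfl; exact hne rfl
    rw [Mz, this, zero_mul, add_zero, map_zero, zero_mul]
  · intro h; exact absurd (Finset.mem_univ _) h

/-- The row with label `none`. -/
lemma row_none (τ : ℂ) (ξ : Fin k × Bool → ℂ) (m : Fin k × Bool) (W : Idx r → ℂ) :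
    ∑ y, S.Mz 0 τ ξ none y * S.wv m W y = - ∑ x : Fin r × Bool,
      (∑ j : Fin k, if (S.ρ j).1 = x.1 then ξ (j, x.2) * S.qv j τ else 0) *
        S.wv m W (some x) := by
  rw [Fintype.sum_option, wv_none, mul_zero, zero_add, ← Finset.sum_neg_distrib]
  refine Finset.sum_congr rfl fun x _ => ?_
  rw [Mz, zero_mul, add_zero]
  have : S.A0 none (some x) = - S.sP x := rfl
  rw [this, map_neg, eval_sP, neg_mul]

lemma path (δ : Un k r) (m : Fin k × Bool) (x : Idx r) : ∃ g : ℂ → ℂ, Continuous g ∧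
    (∀ t : ℂ, S.Phi (0, S.u0 + t • δ) m x = t * g t) ∧ g 0 = S.val δ m x := by
  obtain ⟨j, b⟩ := m
  by_cases hd : S.dum (j, b) x
  · refine ⟨fun _ => δ.2.2 (j, b) x, continuous_const, fun t => ?_, ?_⟩
    · simp [Phi, hd, u0]
    · simp [val, hd]
  · have hPhi : ∀ t : ℂ, S.Phi (0, S.u0 + t • δ) (j, b) x =
        ∑ y, S.Mz 0 (S.th j + t * δ.1 j) (t • δ.2.1) x y * S.wv (j, b) (t • δ.2.2 (j, b)) y := by
      intro t
      simp [Phi, hd, u0]
    rcases x with _ | ⟨i', b'⟩
    · refine ⟨fun t => - ∑ x : Fin r × Bool,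
        (∑ j' : Fin k, if (S.ρ j').1 = x.1 then δ.2.1 (j', x.2) * S.qv j' (S.th j + t * δ.1 j)
          else 0) * S.wv (j, b) (t • δ.2.2 (j, b)) (some x), ?_, fun t => ?_, ?_⟩
      · refine Continuous.neg (continuous_finsetSum _ fun x _ => Continuous.mul
          (continuous_finsetSum _ fun j' _ => ?_) (S.continuous_wv _ _ _))
        split_ifs
        · exact continuous_const.mul ((S.continuous_qv j').comp (by fun_prop))
        · exact continuous_const
      · rw [hPhi, row_none, mul_neg, Finset.mul_sum]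
        congr 1
        refine Finset.sum_congr rfl fun x _ => ?_
        rw [← mul_assoc, Finset.mul_sum]
        congr 1
        refine Finset.sum_congr rfl fun j' _ => ?_
        split_ifs
        · simp only [Pi.smul_apply, smul_eq_mul]; ring
        · simp
      · simp only [zero_mul, add_zero, zero_smul]
        rw [Finset.sum_eq_single ((S.ρ j).1, b)]
        · have h1 := S.wv_self (j, b) (0 : Idx r → ℂ)
          simp only at h1
          rw [h1, mul_one, Finset.sum_eq_single j]
          · simp [val, hd, kap]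
          · intro j' _ hj'
            split_ifs with h2
            · rw [S.qv_zero hj' h2, mul_zero]
            · rfl
          · intro h; exact absurd (Finset.mem_univ _) h
        · intro x _ hx
          rw [S.wv_zero (j, b) x hx, mul_zero]
        · intro h; exact absurd (Finset.mem_univ _) h
    · by_cases hi : i' = (S.ρ j).1
      · -- the root
        subst hi
        have hbb : b = false ∧ b' = true := by
          cases b <;> cases b' <;> simp_all [dum]
        obtain ⟨rfl, rfl⟩ := hbb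
        refine ⟨fun t => - (δ.1 j * S.qv j (S.th j + t * δ.1 j)), ?_, fun t => ?_, ?_⟩
        · exact (continuous_const.mul ((S.continuous_qv j).comp (by fun_prop))).neg
        · rw [hPhi, row_some, av_eq]
          have h1 := S.wv_self (j, false) (t • δ.2.2 (j, false))
          simp only at h1
          simp only [Bool.not_true, h1, if_true]
          ring
        · simp [val, hd, kap]
      · refine ⟨fun t => (if b' then -1 else 1) * S.av i' (S.th j + t * δ.1 j) *
          δ.2.2 (j, b) (some (i', !b')), ?_, fun t => ?_, ?_⟩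
        · exact (continuous_const.mul ((S.continuous_av i').comp (by fun_prop))).mul
            continuous_const
        · rw [hPhi, row_some, S.wv_other (j, b) _ (i', !b') hi]
          simp only [Pi.smul_apply, smul_eq_mul]
          ring
        · simp [val, hd, hi]

lemma surj (R : Eq' k r) : ∃ δ : Un k r, ∀ m x, S.val δ m x = R m x := by
  refine ⟨(fun j => - R (j, false) (some ((S.ρ j).1, true)) / S.kap j,
    fun m => - R m none / S.kap m.1,
    fun m y => if S.dum m y then R m y else match y with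
      | none => 0
      | some (i, b) => if i = (S.ρ m.1).1 then 0 else
          R m (some (i, !b)) / ((if (!b) = true then -1 else 1) * S.av i (S.th m.1))), ?_⟩
  rintro ⟨j, b⟩ x
  by_cases hd : S.dum (j, b) x
  · simp [val, hd]
  · rcases x with _ | ⟨i', b'⟩
    · have := S.kap_ne j
      simp only [val, hd, if_false]
      field_simp
    · by_cases hi : i' = (S.ρ j).1
      · subst hi
        have hbb : b = false ∧ b' = true := by
          cases b <;> cases b' <;> simp_all [dum]
        obtain ⟨rfl, rfl⟩ := hbb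
        have := S.kap_ne j
        simp only [val, hd, if_false, if_true]
        field_simp
      · have h1 : ¬ S.dum (j, b) (some (i', !b')) := by
          unfold dum
          rintro (h | ⟨_, h⟩)
          · exact hi (congrArg Prod.fst (Option.some.inj h))
          · exact hi (congrArg Prod.fst (Option.some.inj h))
        have h2 := S.av_ne hi
        have h3 : ((if b' = true then -1 else 1 : ℂ)) ≠ 0 := by split_ifs <;> norm_num
        simp only [val, hd, if_false, hi, h1, Bool.not_not]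
        field_simp

lemma Phi_u0 : S.Phi (0, S.u0) = 0 := by
  funext m x
  obtain ⟨g, _, h2, _⟩ := S.path 0 m x
  have := h2 0
  simpa using this

lemma th_inj : Function.Injective S.th := S.hθ.comp S.hρ

lemma Mz_skew (z τ : ℂ) (ξ : Fin k × Bool → ℂ) (x y : Idx r) :
    S.Mz z τ ξ y x = - S.Mz z τ ξ x y := by
  rw [Mz, Mz, A0_skew, S.hB x y, map_neg, map_neg]; ring

lemma skew_sum (z τ : ℂ) (ξ : Fin k × Bool → ℂ) (u w : Idx r → ℂ) :
    ∑ x, u x * ∑ y, S.Mz z τ ξ x y * w y = - ∑ y, w y * ∑ x, S.Mz z τ ξ y x * u x := by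
  simp only [Finset.mul_sum]
  rw [Finset.sum_comm, ← Finset.sum_neg_distrib]
  refine Finset.sum_congr rfl fun y _ => ?_
  rw [← Finset.sum_neg_distrib]
  refine Finset.sum_congr rfl fun x _ => ?_
  rw [S.Mz_skew z τ ξ x y]; ring

lemma kernel {z : ℂ} {u : Un k r} (hu : S.Phi (z, u) = 0) (j : Fin k) :
    (∀ x, ∑ y, S.Mz z (u.1 j) u.2.1 x y * S.wv (j, false) (u.2.2 (j, false)) y = 0) ∧
    (∀ x, ∑ y, S.Mz z (u.1 j) u.2.1 x y * S.wv (j, true) (u.2.2 (j, true)) y = 0) := by
  set w0 := S.wv (j, false) (u.2.2 (j, false)) with hw0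
  set w1 := S.wv (j, true) (u.2.2 (j, true)) with hw1
  have e00 : w0 (some ((S.ρ j).1, false)) = 1 := S.wv_self (j, false) _
  have e01 : w0 (some ((S.ρ j).1, true)) = 0 := by simp [hw0, wv]
  have e11 : w1 (some ((S.ρ j).1, true)) = 1 := S.wv_self (j, true) _
  have hrow : ∀ b x, ¬ S.dum (j, b) x →
      ∑ y, S.Mz z (u.1 j) u.2.1 x y * S.wv (j, b) (u.2.2 (j, b)) y = 0 := by
    intro b x hx
    have := congrFun (congrFun hu (j, b)) x
    simpa [Phi, hx] using this
  have h0 : ∀ x, ∑ y, S.Mz z (u.1 j) u.2.1 x y * w0 y = 0 := by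
    have h1 : ∀ x, x ≠ some ((S.ρ j).1, false) →
        ∑ y, S.Mz z (u.1 j) u.2.1 x y * w0 y = 0 := by
      intro x hx
      refine hrow false x ?_
      rintro (h | ⟨h, _⟩)
      · exact hx h
      · exact absurd h (by simp)
    have h2 := S.skew_sum z (u.1 j) u.2.1 w0 w0
    have h3 : ∑ x, w0 x * ∑ y, S.Mz z (u.1 j) u.2.1 x y * w0 y = 0 := by
      have : (2 : ℂ) * ∑ x, w0 x * ∑ y, S.Mz z (u.1 j) u.2.1 x y * w0 y = 0 := by
        linear_combination h2
      exact (mul_eq_zero.1 this).resolve_left two_ne_zero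
    rw [Finset.sum_eq_single (some ((S.ρ j).1, false)) (fun x _ hx => by rw [h1 x hx, mul_zero])
      (fun h => absurd (Finset.mem_univ _) h), e00, one_mul] at h3
    intro x
    by_cases hx : x = some ((S.ρ j).1, false)
    · rw [hx]; exact h3
    · exact h1 x hx
  refine ⟨h0, ?_⟩
  have h1 : ∀ x, x ≠ some ((S.ρ j).1, false) → x ≠ some ((S.ρ j).1, true) →
      ∑ y, S.Mz z (u.1 j) u.2.1 x y * w1 y = 0 := by
    intro x hx hx'
    refine hrow true x ?_
    rintro (h | ⟨_, h⟩)
    · exact hx' h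
    · exact hx h
  have h2 : ∑ y, S.Mz z (u.1 j) u.2.1 (some ((S.ρ j).1, false)) y * w1 y = 0 := by
    have h3 := S.skew_sum z (u.1 j) u.2.1 w0 w1
    simp only [h0, mul_zero, Finset.sum_const_zero, neg_zero] at h3
    rw [Finset.sum_eq_single (some ((S.ρ j).1, false)) _
      (fun h => absurd (Finset.mem_univ _) h), e00, one_mul] at h3
    · exact h3
    · intro x _ hx
      by_cases hx' : x = some ((S.ρ j).1, true)
      · rw [hx', e01, zero_mul]
      · rw [h1 x hx hx', mul_zero]
  have h4 : ∀ x, x ≠ some ((S.ρ j).1, true) →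
      ∑ y, S.Mz z (u.1 j) u.2.1 x y * w1 y = 0 := by
    intro x hx
    by_cases hx' : x = some ((S.ρ j).1, false)
    · rw [hx']; exact h2
    · exact h1 x hx' hx
  have h5 := S.skew_sum z (u.1 j) u.2.1 w1 w1
  have h6 : ∑ x, w1 x * ∑ y, S.Mz z (u.1 j) u.2.1 x y * w1 y = 0 := by
    have : (2 : ℂ) * ∑ x, w1 x * ∑ y, S.Mz z (u.1 j) u.2.1 x y * w1 y = 0 := by
      linear_combination h5
    exact (mul_eq_zero.1 this).resolve_left two_ne_zero
  rw [Finset.sum_eq_single (some ((S.ρ j).1, true)) (fun x _ hx => by rw [h4 x hx, mul_zero])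
    (fun h => absurd (Finset.mem_univ _) h), e11, one_mul] at h6
  intro x
  by_cases hx : x = some ((S.ρ j).1, true)
  · rw [hx]; exact h6
  · exact h4 x hx

/-- For small parameters the matrix `A0 + z B` drops rank at `k` points of a line. -/
lemma near : ∀ᶠ z in 𝓝 (0 : ℂ), ∃ (τ : Fin k → ℂ) (ξ : Fin k × Bool → ℂ), Function.Injective τ ∧
    ∀ (j : Fin k) (f : Fin r × Bool ↪ Idx r),
      pf (Matrix.submatrix (fun x y => S.Mz z (τ j) ξ x y) f f) = 0 := by
  have hO : {u : Un k r | Function.Injective u.1} ∈ 𝓝 S.u0 := by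
    have h1 : {u : Un k r | Function.Injective u.1} =
        ⋂ (j : Fin k) (j' : Fin k) (_ : j ≠ j'), {u : Un k r | u.1 j ≠ u.1 j'} := by
      ext u
      simp only [Set.mem_ofPred_eq, Set.mem_iInter]
      constructor
      · intro h j j' hj hu; exact hj (h hu)
      · intro h j j' hu
        by_contra hne
        exact h j j' hne hu
    have h2 : IsOpen {u : Un k r | Function.Injective u.1} := by
      rw [h1]
      refine isOpen_iInter_of_finite fun j => isOpen_iInter_of_finite fun j' => ?_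
      refine isOpen_iInter_of_finite fun _ => ?_
      exact isOpen_ne_fun (by fun_prop) (by fun_prop)
    exact h2.mem_nhds S.th_inj
  have hift := ift S.Phi S.u0 S.contDiff_Phi.contDiffAt S.Phi_u0 (fun R => by
    obtain ⟨δ, hδ⟩ := S.surj R
    refine ⟨δ, ?_⟩
    rw [hasDerivAt_pi]
    intro m
    rw [hasDerivAt_pi]
    intro x
    obtain ⟨g, hg, h1, h2⟩ := S.path δ m x
    have h3 : (fun t : ℂ => S.Phi (0, S.u0 + t • δ) m x) = fun t => t * g t := funext h1
    rw [h3]
    exact hasDerivAt_mul_id hg.continuousAt (h2.trans (hδ m x))) _ hO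
  filter_upwards [hift] with z hz
  obtain ⟨u, hu1, hu2⟩ := hz
  refine ⟨u.1, u.2.1, hu1, fun j f => ?_⟩
  obtain ⟨h0, h1⟩ := S.kernel hu2 j
  refine pf_sub_eq_zero (by simp; ring) _ (fun x y => S.Mz_skew z _ _ x y)
    (S.wv (j, false) (u.2.2 (j, false))) (S.wv (j, true) (u.2.2 (j, true))) ?_ h0 h1 f
  rw [LinearIndependent.pair_iff]
  intro s t hst
  have h2 := congrFun hst (some ((S.ρ j).1, false))
  have h3 := congrFun hst (some ((S.ρ j).1, true))
  simp [wv] at h2 h3
  exact ⟨h2, h3⟩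

end Dat

end Pool.Agent.SecPf
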