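import Pool.Agent.SecPf.Base
import Pool.Agent.SecPf.Family

/-!
# Degrees of Pfaffians, and multisecant lines for small parameters
-/

set_option autoImplicit false

open Filter Topology MvPolynomial

namespace Pool.Agent.SecPf

open Pool.Agent.SecFill

/-- Every nonzero entry is a form of degree `(c x + c y) / 2`. -/
def Graded {ι σ R : Type} [CommRing R] (c : ι → ℤ) (A : Matrix ι ι (MvPolynomial σ R)) : Prop :=
  ∀ x y, A x y ≠ 0 → ∃ n : ℕ, 2 * (n : ℤ) = c x + c y ∧ (A x y).IsHomogeneous n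

lemma Graded.submatrix {ι κ σ R : Type} [CommRing R] {c : ι → ℤ}
    {A : Matrix ι ι (MvPolynomial σ R)} (hA : Graded c A) (f : κ → ι) :
    Graded (fun x => c (f x)) (A.submatrix f f) := fun x y h => hA (f x) (f y) h

lemma pf_hom {r : ℕ} {σ R : Type} [CommRing R] [Algebra ℂ R] {c : Fin r × Bool → ℤ}
    {B : Matrix (Fin r × Bool) (Fin r × Bool) (MvPolynomial σ R)} (hB : Graded c B) {n : ℕ}
    (hn : 2 * (n : ℤ) = ∑ x, c x) : (pf B).IsHomogeneous n := by
  have hC : ∀ a : ℂ, (algebraMap ℂ (MvPolynomial σ R) a).IsHomogeneous 0 := by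
    intro a
    rw [MvPolynomial.algebraMap_apply]
    exact isHomogeneous_C _ _
  have h1 : ∀ τ : Equiv.Perm (Fin r × Bool),
      (((Equiv.Perm.sign τ : ℤ) : MvPolynomial σ R) *
        ∏ i : Fin r, B (τ (i, false)) (τ (i, true))).IsHomogeneous n := by
    intro τ
    have hs : (((Equiv.Perm.sign τ : ℤ) : MvPolynomial σ R)).IsHomogeneous 0 := by
      have : (((Equiv.Perm.sign τ : ℤ) : MvPolynomial σ R)) = C (((Equiv.Perm.sign τ : ℤ) : R)) := by
        simp
      rw [this]; exact isHomogeneous_C _ _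
    have hp : (∏ i : Fin r, B (τ (i, false)) (τ (i, true))).IsHomogeneous n := by
      by_cases h0 : ∃ i, B (τ (i, false)) (τ (i, true)) = 0
      · obtain ⟨i, hi⟩ := h0
        rw [Finset.prod_eq_zero (Finset.mem_univ i) hi]
        exact isHomogeneous_zero _ _ _
      · push Not at h0
        choose d hd1 hd2 using fun i => hB _ _ (h0 i)
        have h2 := IsHomogeneous.prod Finset.univ (fun i => B (τ (i, false)) (τ (i, true))) d
          (fun i _ => hd2 i)
        have h3 : ∑ i, d i = n := by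
          have h4 : 2 * ((∑ i, d i : ℕ) : ℤ) = 2 * (n : ℤ) := by
            rw [hn, ← Equiv.sum_comp τ, Fintype.sum_prod_type]
            push_cast
            rw [Finset.mul_sum]
            refine Finset.sum_congr rfl fun i _ => ?_
            rw [hd1 i]
            simp [add_comm]
          omega
        rwa [h3] at h2
    simpa using hs.mul hp
  have h5 := (hC ((2 ^ r * (r.factorial : ℂ))⁻¹)).mul
    (IsHomogeneous.sum Finset.univ _ n fun τ _ => h1 τ)
  rw [zero_add] at h5
  exact h5

namespace Dat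

variable {N k r : ℕ} (S : Dat N k r)

lemma sg_hom : S.sg.IsHomogeneous 1 := isHomogeneous_C_mul_X _ _

lemma et_hom (j : Fin (N + 1)) : (S.et j).IsHomogeneous 1 :=
  (isHomogeneous_X _ _).sub (isHomogeneous_C_mul_X _ _)

lemma lin_hom (t : ℂ) : (S.lin t).IsHomogeneous 1 := by
  have h : (C t * S.et S.e0).IsHomogeneous 1 := by
    simpa using (isHomogeneous_C _ t).mul (S.et_hom S.e0)
  exact S.sg_hom.sub h

lemma aP_hom (i : Fin r) : (S.aP i).IsHomogeneous (S.D i) := by
  have := IsHomogeneous.prod Finset.univ (fun b : Fin (S.D i) => S.lin (S.θ ⟨i, b⟩))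
    (fun _ => 1) (fun b _ => S.lin_hom _)
  simpa [aP] using this

lemma qP_hom (j : Fin k) : (S.qP j).IsHomogeneous (S.D (S.ρ j).1 - 1) := by
  have := IsHomogeneous.prod (Finset.univ.erase (S.ρ j).2)
    (fun b => S.lin (S.θ ⟨(S.ρ j).1, b⟩)) (fun _ => 1) (fun b _ => S.lin_hom _)
  simpa [qP, Finset.card_erase_of_mem] using this

lemma sP_hom (hE : ∀ x, S.D x.1 ≤ S.E x) (x : Fin r × Bool) : (S.sP x).IsHomogeneous (S.E x) := by
  refine IsHomogeneous.sum _ _ _ fun j _ => ?_
  split_ifs with h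
  · have h1 := ((S.et_hom (S.e (j, x.2))).mul (S.qP_hom j)).mul
      ((S.et_hom S.e0).pow (S.E x - S.D x.1))
    have h2 := hE x
    have h3 : 0 < S.D (S.ρ j).1 := (Fin.pos (S.ρ j).2)
    have h4 : 1 + (S.D (S.ρ j).1 - 1) + 1 * (S.E x - S.D x.1) = S.E x := by
      rw [h] at h3 ⊢; omega
    rwa [h4] at h1
  · exact isHomogeneous_zero _ _ _

lemma A0_graded {c : Idx r → ℤ} (hD : ∀ i, 2 * (S.D i : ℤ) = c (some (i, false)) + c (some (i, true)))
    (hE : ∀ x, 2 * (S.E x : ℤ) = c (some x) + c none) (hmax : ∀ x, c x ≤ c none) :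
    Graded c S.A0 := by
  have hDE : ∀ x, S.D x.1 ≤ S.E x := by
    rintro ⟨i, b⟩
    have h1 := hD i
    have h2 := hE (i, b)
    have h3 := hmax (some (i, !b))
    simp only
    cases b
    · simp only [Bool.not_false] at h3; omega
    · simp only [Bool.not_true] at h3; omega
  intro x y h
  rcases x with _ | ⟨i, _ | _⟩ <;> rcases y with _ | ⟨i', _ | _⟩ <;>
    simp only [A0, ne_eq, not_true_eq_false] at h ⊢
  · refine ⟨S.E (i', false), by rw [hE]; ring, ?_⟩
    exact (S.sP_hom hDE _).neg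
  · refine ⟨S.E (i', true), by rw [hE]; ring, ?_⟩
    exact (S.sP_hom hDE _).neg
  · exact ⟨S.E (i, false), hE _, S.sP_hom hDE _⟩
  · split_ifs at h ⊢ with hi
    · subst hi
      exact ⟨S.D i, hD i, S.aP_hom i⟩
    · exact absurd rfl h
  · exact ⟨S.E (i, true), hE _, S.sP_hom hDE _⟩
  · split_ifs at h ⊢ with hi
    · subst hi
      exact ⟨S.D i, by rw [hD i]; ring, (S.aP_hom i).neg⟩
    · exact absurd rfl h

/-- The line of matrices. -/
noncomputable def fam : Matrix (Idx r) (Idx r) (MvPolynomial (Fin (N + 1)) (Polynomial ℂ)) :=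
  fun x y => map Polynomial.C (S.A0 x y) + C Polynomial.X * map Polynomial.C (S.B x y)

lemma map_fam (z : ℂ) (x y : Idx r) : map (Polynomial.evalRingHom z) (S.fam x y) =
    S.A0 x y + C z * S.B x y := by
  have h : (Polynomial.evalRingHom z).comp Polynomial.C = RingHom.id ℂ := by
    ext a <;> simp
  show MvPolynomial.map (Polynomial.evalRingHom z) (MvPolynomial.map Polynomial.C (S.A0 x y) +
    C Polynomial.X * MvPolynomial.map Polynomial.C (S.B x y)) = _
  rw [map_add, map_mul, MvPolynomial.map_map, MvPolynomial.map_map, h, MvPolynomial.map_id,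
    MvPolynomial.map_id, map_C]
  simp

lemma map_pf_fam (z : ℂ) (f : Fin r × Bool → Idx r) :
    map (Polynomial.evalRingHom z) (pf (S.fam.submatrix f f)) =
      pf (Matrix.submatrix (fun x y => S.A0 x y + C z * S.B x y) f f) := by
  rw [map_pf (map (Polynomial.evalRingHom z))]
  · congr 1
    ext1 x y
    simp only [Matrix.map_apply, Matrix.submatrix_apply]
    exact S.map_fam z _ _
  · intro a
    rw [MvPolynomial.algebraMap_apply, MvPolynomial.algebraMap_apply, map_C]
    simp

lemma eval_pf_fam (z τ : ℂ) (ξ : Fin k × Bool → ℂ) (f : Fin r × Bool → Idx r) :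
    eval (S.pt τ ξ) (map (Polynomial.evalRingHom z) (pf (S.fam.submatrix f f))) =
      pf (Matrix.submatrix (fun x y => S.Mz z τ ξ x y) f f) := by
  rw [map_pf_fam, map_pf (eval (S.pt τ ξ))]
  · congr 1
    ext1 x y
    show eval (S.pt τ ξ) (S.A0 (f x) (f y) + C z * S.B (f x) (f y)) = S.Mz z τ ξ (f x) (f y)
    simp [Mz]
  · intro a
    rw [MvPolynomial.algebraMap_apply]
    simp

/-- For small parameters there is a multisecant line through `p`. -/
lemma sec_near {m : ℕ} (F : Fin m → (Fin r × Bool ↪ Idx r)) :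
    {z : ℂ | ∃ v H, Sec k (fun i => map (Polynomial.evalRingHom z)
      (pf (S.fam.submatrix (F i) (F i)))) S.p S.j0 v H}.Infinite := by
  refine infinite_of_mem_nhds 0 ?_
  filter_upwards [S.near] with z hz
  obtain ⟨τ, ξ, hτ, h⟩ := hz
  refine ⟨S.vv ξ, ∏ j : Fin k, (Polynomial.X - Polynomial.C (τ j)), S.vv_j0 ξ, ?_, ?_, ?_, ?_⟩
  · intro h0
    have := congrFun h0 S.e0
    rw [S.vv_e0] at this
    exact one_ne_zero this
  · exact Polynomial.monic_prod_of_monic _ _ fun j _ => Polynomial.monic_X_sub_C _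
  · rw [Polynomial.natDegree_prod_of_monic _ _ fun j _ => Polynomial.monic_X_sub_C _]
    simp
  · intro i
    refine Finset.prod_dvd_of_coprime ?_ fun j _ => ?_
    · intro a _ b _ hab
      exact Polynomial.isCoprime_X_sub_C_of_isUnit_sub
        (sub_ne_zero.2 fun h => hab (hτ h)).isUnit
    · rw [Polynomial.dvd_iff_isRoot, Polynomial.IsRoot.def, dehom_eval, onLine_eval]
      have h1 := S.eval_pf_fam z (τ j) ξ (F i)
      rw [h j (F i)] at h1
      rw [← h1]
      congr 2
      funext l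
      simp [pt]

end Dat

end Pool.Agent.SecPf
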