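import Pool.Agent.SecPf.Hom

/-!
# Multisecant lines of Pfaffian schemes of codimension three
-/

set_option autoImplicit false

open MvPolynomial

namespace Pool.Agent.SecPf

open Pool.Agent.SecFill

lemma Graded.hom {ι σ R : Type} [CommRing R] {c : ι → ℤ} {A : Matrix ι ι (MvPolynomial σ R)}
    (hA : Graded c A) {x y : ι} {n : ℕ} (hn : 2 * (n : ℤ) = c x + c y) :
    (A x y).IsHomogeneous n := by
  by_cases h : A x y = 0
  · rw [h]; exact isHomogeneous_zero _ _ _
  · obtain ⟨n', h1, h2⟩ := hA x y h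
    have : n' = n := by omega
    rwa [this] at h2

/-- The index of maximal weight is the one to be deleted for the least degree. -/
lemma sum_emb {r : ℕ} (c : Idx r → ℤ) (hmax : ∀ x, c x ≤ c none) (f : Fin r × Bool ↪ Idx r) :
    ∑ x : Fin r × Bool, c (some x) ≤ ∑ x, c (f x) := by
  classical
  have h1 : ∑ x, c (f x) = ∑ y ∈ Finset.univ.map f, c y := by rw [Finset.sum_map]
  have h2 := Finset.sum_sdiff (f := c) (Finset.subset_univ (Finset.univ.map f))
  have h3 : (Finset.univ \ Finset.univ.map f : Finset (Idx r)).card = 1 := by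
    rw [Finset.card_sdiff_of_subset (Finset.subset_univ _), Finset.card_map, Finset.card_univ,
      Finset.card_univ]
    simp
  have h4 : ∑ y ∈ Finset.univ \ Finset.univ.map f, c y ≤ c none := by
    obtain ⟨l, hl⟩ := Finset.card_eq_one.1 h3
    rw [hl, Finset.sum_singleton]
    exact hmax l
  rw [Fintype.sum_option] at h2
  rw [h1]
  linarith

/-- Multisecant lines through a point off the scheme. -/
theorem core {N k r m : ℕ} (hk : 2 * k + 1 ≤ N)
    (A : Matrix (Idx r) (Idx r) (MvPolynomial (Fin (N + 1)) ℂ)) (hA : ∀ x y, A y x = - A x y)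
    (c : Idx r → ℤ) (hpar : ∀ x y, Even (c x + c y)) (hdeg : Graded c A)
    (hpair : ∀ i, 0 ≤ c (some (i, false)) + c (some (i, true))) (hmax : ∀ x, c x ≤ c none)
    (F : Fin m → (Fin r × Bool ↪ Idx r)) (d : Fin m → ℕ)
    (hd : ∀ i, 2 * (d i : ℤ) = ∑ x, c (F i x)) (hkd : ∀ i, k ≤ d i)
    (hck : 2 * (k : ℤ) ≤ ∑ x : Fin r × Bool, c (some x))
    (p : Fin (N + 1) → ℂ) (j0 : Fin (N + 1)) (hp : p j0 ≠ 0)
    (hX : ∃ i, eval p (pf (A.submatrix (F i) (F i))) ≠ 0) :
    ∃ v H, Sec k (fun i => pf (A.submatrix (F i) (F i))) p j0 v H := by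
  classical
  -- degrees
  have hhalf : ∀ x y, 0 ≤ c x + c y → ∃ n : ℕ, 2 * (n : ℤ) = c x + c y := by
    intro x y h
    obtain ⟨a, ha⟩ := hpar x y
    refine ⟨a.toNat, ?_⟩
    have : 0 ≤ a := by omega
    rw [Int.toNat_of_nonneg this, ha]; ring
  choose D hD using fun i => hhalf _ _ (hpair i)
  have hE0 : ∀ x : Fin r × Bool, 0 ≤ c (some x) + c none := by
    rintro ⟨i, b⟩
    have h1 := hpair i
    have h2 := hmax (some (i, !b))
    cases b
    · simp only [Bool.not_false] at h2; linarith
    · simp only [Bool.not_true] at h2; linarith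
  choose E hE using fun x => hhalf _ _ (hE0 x)
  -- roots
  have hcard : Fintype.card (Fin k) ≤ Fintype.card (Σ i, Fin (D i)) := by
    rw [Fintype.card_fin, Fintype.card_sigma]
    simp only [Fintype.card_fin]
    have h1 : 2 * ((∑ i, D i : ℕ) : ℤ) = ∑ x : Fin r × Bool, c (some x) := by
      rw [Fintype.sum_prod_type]
      push_cast
      rw [Finset.mul_sum]
      refine Finset.sum_congr rfl fun i _ => ?_
      rw [hD i]
      simp [add_comm]
    omega
  obtain ⟨ρ⟩ := Function.Embedding.nonempty_of_card_le hcard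
  -- directions
  have hcard2 : Fintype.card (Option (Fin k × Bool)) ≤ Fintype.card {j : Fin (N + 1) // j ≠ j0} := by
    rw [Fintype.card_subtype_compl, Fintype.card_option]
    simp
    omega
  obtain ⟨κ⟩ := Function.Embedding.nonempty_of_card_le hcard2
  let S0 : Dat N k r :=
    { p := p
      j0 := j0
      hp := hp
      D := D
      E := E
      e0 := (κ none).1
      he0 := (κ none).2
      e := fun m => (κ (some m)).1
      he := fun a b h => Option.some.inj (κ.injective (Subtype.ext h))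
      hej := fun m => (κ (some m)).2
      hee := fun m h => by
        have := κ.injective (Subtype.ext h)
        simp at this
      θ := fun s => ((Fintype.equivFin _ s : ℕ) : ℂ)
      hθ := fun a b h => by
        exact (Fintype.equivFin _).injective (Fin.ext (Nat.cast_injective (R := ℂ) h))
      ρ := ρ
      hρ := ρ.injective
      B := 0
      hB := fun _ _ => by simp }
  let S : Dat N k r :=
    { S0 with
      B := fun x y => A x y - S0.A0 x y
      hB := fun x y => by rw [hA x y, S0.A0_skew x y]; ring }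
  have hS : S.A0 = S0.A0 := rfl
  have hA0 : Graded c S.A0 := S.A0_graded hD hE hmax
  have hfam : Graded c S.fam := by
    intro x y hxy
    have hn : ∃ n : ℕ, 2 * (n : ℤ) = c x + c y := by
      by_cases h1 : S.A0 x y = 0
      · by_cases h2 : A x y = 0
        · exfalso
          apply hxy
          show MvPolynomial.map Polynomial.C (S.A0 x y) +
            C Polynomial.X * MvPolynomial.map Polynomial.C (A x y - S0.A0 x y) = 0
          rw [← hS, h1, h2]; simp
        · obtain ⟨n, hn, _⟩ := hdeg x y h2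
          exact ⟨n, hn⟩
      · obtain ⟨n, hn, _⟩ := hA0 x y h1
        exact ⟨n, hn⟩
    obtain ⟨n, hn⟩ := hn
    refine ⟨n, hn, ?_⟩
    have h1 := hA0.hom hn
    have h2 := hdeg.hom hn
    have h3 : (MvPolynomial.map Polynomial.C (S.A0 x y)).IsHomogeneous n := h1.map _
    have h4 : (MvPolynomial.map Polynomial.C (A x y - S0.A0 x y)).IsHomogeneous n :=
      (h2.sub h1).map _
    have h5 := (isHomogeneous_C (Fin (N + 1)) (Polynomial.X : Polynomial ℂ)).mul h4
    rw [zero_add] at h5
    exact h3.add h5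
  have hone : ∀ f : Fin r × Bool → Idx r, map (Polynomial.evalRingHom 1)
      (pf (S.fam.submatrix f f)) = pf (A.submatrix f f) := by
    intro f
    rw [S.map_pf_fam]
    congr 1
    ext1 x y
    show S.A0 (f x) (f y) + C 1 * (A (f x) (f y) - S0.A0 (f x) (f y)) = A (f x) (f y)
    rw [hS, map_one]; ring
  have hmain := spec (k := k) (fun i => pf (S.fam.submatrix (F i) (F i))) d
    (fun i => pf_hom (hfam.submatrix (F i)) (hd i)) hkd p j0 (S.sec_near F) (by
      obtain ⟨i, hi⟩ := hX
      refine ⟨i, ?_⟩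
      rw [hone]; exact hi)
  simpa only [hone] using hmain

/-- The ideal of the Pfaffians of order `2 r` of a matrix. -/
noncomputable def pfIdeal {r : ℕ} {ι R : Type} [CommRing R] [Algebra ℂ R] (A : Matrix ι ι R) :
    Ideal R :=
  Ideal.span (Set.range fun f : Fin r × Bool ↪ ι => pf (A.submatrix f f))

theorem main {N k r : ℕ} (hk : 2 * k + 1 ≤ N)
    (A : Matrix (Fin (2 * r + 1)) (Fin (2 * r + 1)) (MvPolynomial (Fin (N + 1)) ℂ))
    (hA : ∀ x y, A y x = - A x y) (c : Fin (2 * r + 1) → ℤ) (hpar : ∀ x y, Even (c x + c y))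
    (hdeg : Graded c A) (M : Fin (2 * r + 1)) (hM : ∀ x, c x ≤ c M)
    (hPf : ∃ f : Fin r × Bool ↪ Fin (2 * r + 1), (∀ x, f x ≠ M) ∧ pf (A.submatrix f f) ≠ 0)
    (hX : ∀ G ∈ pfIdeal (r := r) A, G ≠ 0 → ∀ e, G.IsHomogeneous e → k ≤ e)
    (p : Fin (N + 1) → ℂ) (hp : p ≠ 0) :
    ∃ v : Fin (N + 1) → ℂ, LinearIndependent ℂ ![p, v] ∧
      ∃ h : MvPolynomial (Fin 2) ℂ, h.IsHomogeneous k ∧ h ≠ 0 ∧
        ∀ G ∈ pfIdeal (r := r) A, h ∣ onLine p v G := by
  classical
  obtain ⟨f0, hf0, hf1⟩ := hPf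
  -- a perfect matching
  obtain ⟨σ, hσ⟩ : ∃ σ : Equiv.Perm (Fin r × Bool), ∀ i : Fin r,
      A (f0 (σ (i, false))) (f0 (σ (i, true))) ≠ 0 := by
    by_contra hcon
    push Not at hcon
    apply hf1
    rw [pf, Finset.sum_eq_zero, mul_zero]
    intro σ _
    obtain ⟨i, hi⟩ := hcon σ
    rw [Finset.prod_eq_zero (Finset.mem_univ i), mul_zero]
    exact hi
  choose n hn _ using fun i => hdeg _ _ (hσ i)
  let g : Fin r × Bool ↪ Fin (2 * r + 1) := σ.toEmbedding.trans f0
  have hg : ∀ x, g x ≠ M := fun x => hf0 _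
  have hinj : Function.Injective (fun x : Idx r => x.elim M g) := by
    rintro (_ | x) (_ | y) h
    · rfl
    · exact absurd h.symm (hg y)
    · exact absurd h (hg x)
    · exact congrArg some (g.injective h)
  have hbij : Function.Bijective (fun x : Idx r => x.elim M g) := by
    rw [Fintype.bijective_iff_injective_and_card]
    refine ⟨hinj, ?_⟩
    simp
    ring
  let lam : Idx r ≃ Fin (2 * r + 1) := Equiv.ofBijective _ hbij
  have hlamn : lam none = M := rfl
  have hlams : ∀ x, lam (some x) = g x := fun x => rfl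
  -- the sum of the weights
  have hsum : ∑ x, c (g x) = 2 * ((∑ i, n i : ℕ) : ℤ) := by
    rw [Fintype.sum_prod_type]
    push_cast
    rw [Finset.mul_sum]
    refine Finset.sum_congr rfl fun i _ => ?_
    rw [hn i]
    simp [g, add_comm]
  have hsum0 : ∑ x, c (f0 x) = 2 * ((∑ i, n i : ℕ) : ℤ) := by
    rw [← hsum, ← Equiv.sum_comp σ]; rfl
  have hkn : k ≤ ∑ i, n i := by
    refine hX _ (Ideal.subset_span ⟨f0, rfl⟩) hf1 _ ?_
    exact pf_hom (hdeg.submatrix f0) hsum0.symm
  -- all embeddings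
  let e := Fintype.equivFin (Fin r × Bool ↪ Idx r)
  let F : Fin (Fintype.card (Fin r × Bool ↪ Idx r)) → (Fin r × Bool ↪ Idx r) := fun i => e.symm i
  let A' : Matrix (Idx r) (Idx r) (MvPolynomial (Fin (N + 1)) ℂ) := A.submatrix lam lam
  let c' : Idx r → ℤ := fun x => c (lam x)
  have hmax : ∀ x, c' x ≤ c' none := fun x => hM _
  have hck : 2 * (k : ℤ) ≤ ∑ x : Fin r × Bool, c' (some x) := by
    show _ ≤ ∑ x, c (g x)
    rw [hsum]
    exact_mod_cast Nat.mul_le_mul_left 2 hkn
  have hd : ∀ i, ∃ d : ℕ, 2 * (d : ℤ) = ∑ x, c' (F i x) := by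
    intro i
    have h1 := sum_emb c' hmax (F i)
    have h2 : Even (∑ x, c' (F i x)) := by
      rw [Fintype.sum_prod_type]
      refine Finset.even_sum _ fun j _ => ?_
      rw [Fintype.sum_bool]
      exact hpar _ _
    obtain ⟨a, ha⟩ := h2
    refine ⟨a.toNat, ?_⟩
    rw [Int.toNat_of_nonneg (by omega), ha]; ring
  choose d hd using hd
  have hkd : ∀ i, k ≤ d i := by
    intro i
    have h1 := sum_emb c' hmax (F i)
    have h2 := hd i
    omega
  have hdeg' : Graded c' A' := hdeg.submatrix lam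
  have hhom : ∀ i, (pf (A'.submatrix (F i) (F i))).IsHomogeneous (d i) :=
    fun i => pf_hom (hdeg'.submatrix (F i)) (hd i)
  have hspan : pfIdeal (r := r) A =
      Ideal.span (Set.range fun i => pf (A'.submatrix (F i) (F i))) := by
    rw [pfIdeal]
    congr 1
    ext P
    constructor
    · rintro ⟨f, rfl⟩
      refine ⟨e (f.trans lam.symm.toEmbedding), ?_⟩
      simp only [F, Equiv.symm_apply_apply, A']
      congr 1
      ext1 x y
      simp
    · rintro ⟨i, rfl⟩
      refine ⟨(F i).trans lam.toEmbedding, ?_⟩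
      rfl
  have hne : ∃ i, pf (A'.submatrix (F i) (F i)) ≠ 0 := by
    refine ⟨e (f0.trans lam.symm.toEmbedding), ?_⟩
    have h1 : A'.submatrix (F (e (f0.trans lam.symm.toEmbedding)))
        (F (e (f0.trans lam.symm.toEmbedding))) = A.submatrix f0 f0 := by
      simp only [F, Equiv.symm_apply_apply, A']
      ext1 x y
      simp
    rw [h1]; exact hf1
  obtain ⟨j0, hj0⟩ : ∃ j0, p j0 ≠ 0 := by
    by_contra hcon
    push Not at hcon
    exact hp (funext hcon)
  rw [hspan]
  refine fill_of_off (fun i => pf (A'.submatrix (F i) (F i))) d hhom hkd hne p j0 hj0 ?_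
  intro q hq hqX
  refine core hk A' (fun x y => hA _ _) c' (fun x y => hpar _ _) hdeg' (fun i => ?_) hmax F d hd
    hkd hck q j0 hq hqX
  have h1 := hn i
  show 0 ≤ c (g (i, false)) + c (g (i, true))
  have h2 : c (g (i, false)) + c (g (i, true)) = 2 * (n i : ℤ) := h1.symm
  rw [h2]; positivity

end Pool.Agent.SecPf
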