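import Mathlib

/-!
# Pfaffians
-/

set_option autoImplicit false

namespace Pool.Agent.SecPf

/-- The Pfaffian of a (skew-symmetric) matrix with rows and columns labelled by `Fin r × Bool`. -/
noncomputable def pf {r : ℕ} {R : Type} [CommRing R] [Algebra ℂ R]
    (B : Matrix (Fin r × Bool) (Fin r × Bool) R) : R :=
  algebraMap ℂ R ((2 ^ r * (r.factorial : ℂ))⁻¹) *
    ∑ σ : Equiv.Perm (Fin r × Bool), ((Equiv.Perm.sign σ : ℤ) : R) *
      ∏ i : Fin r, B (σ (i, false)) (σ (i, true))

lemma map_pf {r : ℕ} {R S : Type} [CommRing R] [Algebra ℂ R] [CommRing S] [Algebra ℂ S]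
    (φ : R →+* S) (hφ : ∀ a : ℂ, φ (algebraMap ℂ R a) = algebraMap ℂ S a)
    (B : Matrix (Fin r × Bool) (Fin r × Bool) R) : φ (pf B) = pf (B.map φ) := by
  rw [pf, pf, map_mul, hφ, map_sum]
  congr 1
  refine Finset.sum_congr rfl fun σ _ => ?_
  rw [map_mul, map_intCast, map_prod]
  rfl

/-- The matrix has a kernel vector: the sum over permutations vanishes. -/
lemma sum_eq_zero {r : ℕ} (B : Matrix (Fin r × Bool) (Fin r × Bool) ℂ) (w : Fin r × Bool → ℂ)
    (h1 : ∀ m, ∑ y, w y * B y m = 0) (h2 : ∀ m, ∑ y, w y * B m y = 0) (hw : w ≠ 0) :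
    ∑ σ : Equiv.Perm (Fin r × Bool), ((Equiv.Perm.sign σ : ℤ) : ℂ) *
      ∏ i : Fin r, B (σ (i, false)) (σ (i, true)) = 0 := by
  classical
  obtain ⟨l, hl⟩ : ∃ l, w l ≠ 0 := by
    by_contra hcon
    push Not at hcon
    exact hw (funext hcon)
  set g : Fin r × Bool → Fin r × Bool → Fin r × Bool := fun y => Function.update id l y with hg
  set P : Fin r × Bool → ℂ := fun y => ∑ σ : Equiv.Perm (Fin r × Bool),
    ((Equiv.Perm.sign σ : ℤ) : ℂ) * ∏ i : Fin r, B (g y (σ (i, false))) (g y (σ (i, true))) with hP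
  have hgl : ∀ y, g y l = y := fun y => by simp [hg]
  have hgn : ∀ y x, x ≠ l → g y x = x := fun y x hx => by simp [hg, hx]
  have hsum : ∑ y, w y * P y = 0 := by
    simp only [hP, Finset.mul_sum]
    rw [Finset.sum_comm]
    refine Finset.sum_eq_zero fun σ _ => ?_
    obtain ⟨⟨i0, b⟩, hib⟩ : ∃ x, σ x = l := σ.surjective l
    have hne : ∀ x, x ≠ (i0, b) → σ x ≠ l := fun x hx h => hx (σ.injective (h.trans hib.symm))
    have hrest : ∀ y, ∏ i ∈ Finset.univ.erase i0, B (g y (σ (i, false))) (g y (σ (i, true))) =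
        ∏ i ∈ Finset.univ.erase i0, B (σ (i, false)) (σ (i, true)) := by
      intro y
      refine Finset.prod_congr rfl fun i hi => ?_
      have hi' : i ≠ i0 := (Finset.mem_erase.1 hi).1
      rw [hgn y _ (hne _ fun h => hi' (congrArg Prod.fst h)),
        hgn y _ (hne _ fun h => hi' (congrArg Prod.fst h))]
    have hfac : ∀ y, w y * (((Equiv.Perm.sign σ : ℤ) : ℂ) *
        ∏ i : Fin r, B (g y (σ (i, false))) (g y (σ (i, true)))) =
        (w y * B (g y (σ (i0, false))) (g y (σ (i0, true)))) *
          (((Equiv.Perm.sign σ : ℤ) : ℂ) *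
            ∏ i ∈ Finset.univ.erase i0, B (σ (i, false)) (σ (i, true))) := by
      intro y
      rw [← Finset.mul_prod_erase Finset.univ _ (Finset.mem_univ i0), hrest y]
      ring
    simp only [hfac]
    rw [← Finset.sum_mul]
    refine mul_eq_zero_of_left ?_ _
    cases b with
    | false =>
      have h3 : σ (i0, true) ≠ l := hne _ (by simp)
      simp only [hib, hgl, hgn _ _ h3]
      exact h1 _
    | true =>
      have h3 : σ (i0, false) ≠ l := hne _ (by simp)
      simp only [hib, hgl, hgn _ _ h3]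
      exact h2 _
  have hoff : ∀ y, y ≠ l → P y = 0 := by
    intro y hy
    have h3 : P y = - P y := by
      conv_lhs => rw [hP]
      simp only
      rw [← Equiv.sum_comp (Equiv.mulLeft (Equiv.swap y l))]
      rw [hP]
      simp only
      rw [← Finset.sum_neg_distrib]
      refine Finset.sum_congr rfl fun σ _ => ?_
      have h4 : ∀ x, g y ((Equiv.mulLeft (Equiv.swap y l) σ) x) = g y (σ x) := by
        intro x
        simp only [Equiv.coe_mulLeft, Equiv.Perm.coe_mul, Function.comp_apply]
        by_cases hx1 : σ x = y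
        · rw [hx1, Equiv.swap_apply_left, hgl, hgn y y hy]
        · by_cases hx2 : σ x = l
          · rw [hx2, Equiv.swap_apply_right, hgl, hgn y y hy]
          · rw [Equiv.swap_apply_of_ne_of_ne hx1 hx2]
      simp only [h4]
      have h5 : Equiv.Perm.sign (Equiv.mulLeft (Equiv.swap y l) σ) = - Equiv.Perm.sign σ := by
        simp [Equiv.Perm.sign_swap hy]
      rw [h5]
      push_cast
      ring
    have : (2 : ℂ) * P y = 0 := by linear_combination h3
    exact (mul_eq_zero.1 this).resolve_left two_ne_zero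
  rw [Finset.sum_eq_single l (fun y _ hy => by rw [hoff y hy, mul_zero])
    (fun h => absurd (Finset.mem_univ _) h)] at hsum
  have h6 := (mul_eq_zero.1 hsum).resolve_left hl
  have h7 : g l = id := by simp [hg]
  simpa [hP, h7] using h6

lemma pf_eq_zero {r : ℕ} (B : Matrix (Fin r × Bool) (Fin r × Bool) ℂ) (w : Fin r × Bool → ℂ)
    (h1 : ∀ m, ∑ y, w y * B y m = 0) (h2 : ∀ m, ∑ y, w y * B m y = 0) (hw : w ≠ 0) :
    pf B = 0 := by
  rw [pf, sum_eq_zero B w h1 h2 hw, mul_zero]

/-- Two independent kernel vectors of a skew-symmetric matrix of size `2 r + 1`: all Pfaffians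
of order `2 r` vanish. -/
lemma pf_sub_eq_zero {r : ℕ} {ι : Type} [Fintype ι] [DecidableEq ι]
    (hcard : Fintype.card ι = 2 * r + 1) (A : Matrix ι ι ℂ) (hA : ∀ x y, A y x = - A x y)
    (w1 w2 : ι → ℂ) (hw : LinearIndependent ℂ ![w1, w2])
    (h1 : ∀ x, ∑ y, A x y * w1 y = 0) (h2 : ∀ x, ∑ y, A x y * w2 y = 0)
    (f : Fin r × Bool ↪ ι) : pf (A.submatrix f f) = 0 := by
  classical
  -- the missing index
  have hc : (Finset.univ \ Finset.univ.map f : Finset ι).card = 1 := by
    rw [Finset.card_sdiff_of_subset (Finset.subset_univ _), Finset.card_map, Finset.card_univ,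
      Finset.card_univ, hcard]
    simp [Fintype.card_prod]
    omega
  obtain ⟨l, hl⟩ := Finset.card_eq_one.1 hc
  have hmem : ∀ x, x ≠ l → ∃ y, f y = x := by
    intro x hx
    by_contra hcon
    have : x ∈ (Finset.univ \ Finset.univ.map f : Finset ι) := by
      simp only [Finset.mem_sdiff, Finset.mem_univ, Finset.mem_map, true_and]
      exact hcon
    rw [hl, Finset.mem_singleton] at this
    exact hx this
  have hlf : ∀ y, f y ≠ l := by
    intro y hy
    have : l ∈ (Finset.univ \ Finset.univ.map f : Finset ι) := by rw [hl]; simp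
    simp only [Finset.mem_sdiff, Finset.mem_univ, Finset.mem_map, true_and] at this
    exact this ⟨y, hy⟩
  -- a kernel vector vanishing at `l`
  obtain ⟨w, hwl, hw0, hwk⟩ : ∃ w : ι → ℂ, w l = 0 ∧ w ≠ 0 ∧ ∀ x, ∑ y, A x y * w y = 0 := by
    by_cases h3 : w1 l = 0
    · refine ⟨w1, h3, ?_, h1⟩
      have := hw.ne_zero 0
      simpa using this
    · refine ⟨fun x => w2 l * w1 x - w1 l * w2 x, by ring, ?_, ?_⟩
      · intro h4
        rw [LinearIndependent.pair_iff] at hw
        have h5 := hw (w2 l) (- w1 l) (by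
          funext x
          have := congrFun h4 x
          simp only [Pi.add_apply, Pi.smul_apply, smul_eq_mul, Pi.zero_apply] at this ⊢
          linear_combination this)
        exact h3 (neg_eq_zero.1 h5.2)
      · intro x
        have : ∑ y, A x y * (w2 l * w1 y - w1 l * w2 y) =
            w2 l * ∑ y, A x y * w1 y - w1 l * ∑ y, A x y * w2 y := by
          rw [Finset.mul_sum, Finset.mul_sum, ← Finset.sum_sub_distrib]
          exact Finset.sum_congr rfl fun y _ => by ring
        rw [this, h1, h2]; ring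
  -- restrict
  have hres : ∀ x, ∑ y : Fin r × Bool, A x (f y) * w (f y) = 0 := by
    intro x
    rw [← hwk x, ← Finset.sum_map Finset.univ f (fun y => A x y * w y)]
    refine Finset.sum_subset (Finset.subset_univ _) fun y _ hy => ?_
    have : y = l := by
      by_contra hne
      obtain ⟨z, hz⟩ := hmem y hne
      exact hy (Finset.mem_map.2 ⟨z, Finset.mem_univ _, hz⟩)
    rw [this, hwl, mul_zero]
  refine pf_eq_zero _ (fun y => w (f y)) ?_ ?_ ?_
  · intro m
    have := hres (f m)
    rw [← neg_eq_zero, ← Finset.sum_neg_distrib, ← this]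
    refine Finset.sum_congr rfl fun y _ => ?_
    rw [Matrix.submatrix_apply, hA (f m) (f y)]
    ring
  · intro m
    have := hres (f m)
    rw [← this]
    refine Finset.sum_congr rfl fun y _ => ?_
    rw [Matrix.submatrix_apply]; ring
  · intro h4
    apply hw0
    funext x
    by_cases hx : x = l
    · rw [hx, hwl]; rfl
    · obtain ⟨y, hy⟩ := hmem x hx
      have := congrFun h4 y
      simpa [hy] using this

end Pool.Agent.SecPf
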